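import Pool.Agent.Lib.MP_9cfc0a_nt.EMPsi

set_option autoImplicit false

/-! Shared definitions of the campaign SK (MP_9cfc0a, SharpConstant). `w = s - 1/2` throughout. -/

namespace Pool.Agent.SK

open Complex MeasureTheory
open Pool.Agent.EM (psiC)

/-- The completed `L`-function, centred at `1/2`. -/
noncomputable def Lam {r : ℕ} [NeZero r] (χ : DirichletCharacter ℂ r) (w : ℂ) : ℂ :=
  χ.completedLFunction (1 / 2 + w)

open scoped Classical in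
/-- The zeros of `Lam χ` with `|Im w| ≤ T` (finitely many for primitive `χ ≠ 1`). -/
noncomputable def Z {r : ℕ} [NeZero r] (χ : DirichletCharacter ℂ r) (T : ℝ) : Finset ℂ :=
  if h : {w : ℂ | Lam χ w = 0 ∧ |w.im| ≤ T}.Finite then h.toFinset else ∅

/-- The multiplicity of the zero `w` of `Lam χ`. -/
noncomputable def mu {r : ℕ} [NeZero r] (χ : DirichletCharacter ℂ r) (w : ℂ) : ℝ :=
  (analyticOrderNatAt (Lam χ) w : ℝ)

/-- `ψ(e^v, χ) e^{-v/2}`. -/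
noncomputable def ff {q : ℕ} (χ : DirichletCharacter ℂ q) (v : ℝ) : ℂ :=
  psiC χ (Real.exp v) * ((Real.exp (-v / 2) : ℝ) : ℂ)

/-- The weighted mean square. -/
noncomputable def DD {q : ℕ} (χ : DirichletCharacter ℂ q) (Y : ℝ) : ℝ :=
  ∫ t in (0 : ℝ)..Y, (1 - t / Y) * ‖ff χ t‖ ^ 2

/-- The Gaussian kernel `(1/2 + ix - s/W²) exp(ixs - s²/(2W²))`. -/
noncomputable def gk (W x s : ℝ) : ℂ :=
  (1 / 2 + (x : ℂ) * I - ((s / W ^ 2 : ℝ) : ℂ)) *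
    Complex.exp ((x : ℂ) * s * I - ((s ^ 2 / (2 * W ^ 2) : ℝ) : ℂ))

/-- `P(x, t) = ∫_{v > 0} f(v) gk(t - v) dv`. -/
noncomputable def PX {q : ℕ} (χ : DirichletCharacter ℂ q) (W x t : ℝ) : ℂ :=
  ∫ v in Set.Ioi (0 : ℝ), ff χ v * gk W x (t - v)

/-- `P_u`, averaged over `x ∈ [a, b]`. -/
noncomputable def PU {q : ℕ} (χ : DirichletCharacter ℂ q) (W a b t : ℝ) : ℂ :=
  (1 / (2 * Real.pi) : ℂ) * ∫ x in a..b, PX χ W x t

/-- `(1/2π) exp(-t²/(2W²)) ∫_a^b e^{ixt} dx`. -/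
noncomputable def kap (W a b t : ℝ) : ℂ :=
  (1 / (2 * Real.pi) : ℂ) * ((Real.exp (-(t ^ 2 / (2 * W ^ 2))) : ℝ) : ℂ) *
    ∫ x in a..b, Complex.exp ((x : ℂ) * t * I)

/-- The Gaussian `(W/√(2π)) exp(W² (z - ix)²/2)`. -/
noncomputable def gz (W x : ℝ) (z : ℂ) : ℂ :=
  ((W / Real.sqrt (2 * Real.pi) : ℝ) : ℂ) * Complex.exp (((W ^ 2 / 2 : ℝ) : ℂ) * (z - (x : ℂ) * I) ^ 2)

/-- The smoothed indicator function of `[a, b]`, as a function of `z = i γ` (entire in `z`). -/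
noncomputable def FI (W a b : ℝ) (z : ℂ) : ℂ := ∫ x in a..b, gz W x z

/-- The sum over the zeros, one frequency. -/
noncomputable def GX {r : ℕ} [NeZero r] (χ : DirichletCharacter ℂ r) (T W x t : ℝ) : ℂ :=
  ∑ w ∈ Z χ T, (mu χ w : ℂ) * gz W x w * Complex.exp (w * t)

/-- The sum over the zeros, frequencies in `[a, b]`. -/
noncomputable def Gu {r : ℕ} [NeZero r] (χ : DirichletCharacter ℂ r) (T W a b t : ℝ) : ℂ :=
  ∑ w ∈ Z χ T, (mu χ w : ℂ) * FI W a b w * Complex.exp (w * t)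

/-- The good characters: zero free region (G1) and small prime sums (G2), (G3).
`L = log r`, `W = L^(1/2 - ε/4)`, the prime sums for `t ≤ L^(1/2)`. -/
structure Good {r : ℕ} [NeZero r] (χ : DirichletCharacter ℂ r) (ε θ D T₀ : ℝ) : Prop where
  zf : ∀ w : ℂ, Lam χ w = 0 → |w.im| ≤ Real.log r + 2 →
    |w.re| ≤ D * Real.log (Real.log r) / Real.log r
  pr : ∫ x in (-T₀)..T₀, ∫ t in (-(Real.log r ^ 2))..(Real.log r ^ (1 / 2 : ℝ)),
    ‖PX χ (Real.log r ^ (1 / 2 - ε / 4 : ℝ)) x t‖ ^ 2 ≤ θ * Real.log r ^ 2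
  p0 : ∫ x in (-T₀)..T₀, ‖PX χ (Real.log r ^ (1 / 2 - ε / 4 : ℝ)) x 0‖ ^ 2 ≤ θ * Real.log r ^ 2

end Pool.Agent.SK
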