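import Mathlib

set_option autoImplicit false

/-! Definitions of part (E) of the campaign SK (MP_9cfc0a, SharpConstant). Pure Mathlib. -/

namespace Pool.Agent.SK.E

open Complex MeasureTheory

/-- The kernel `(1/2 + ix - s/W²) exp(ixs - s²/(2W²))`. -/
noncomputable def gk (W x s : ℝ) : ℂ :=
  (1 / 2 + (x : ℂ) * I - ((s / W ^ 2 : ℝ) : ℂ)) *
    Complex.exp ((x : ℂ) * s * I - ((s ^ 2 / (2 * W ^ 2) : ℝ) : ℂ))

/-- The Gaussian `(W/√(2π)) exp(W² (z - ix)²/2)`. -/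
noncomputable def gz (W x : ℝ) (z : ℂ) : ℂ :=
  ((W / Real.sqrt (2 * Real.pi) : ℝ) : ℂ) * Complex.exp (((W ^ 2 / 2 : ℝ) : ℂ) * (z - (x : ℂ) * I) ^ 2)

/-- The smoothed indicator function of `[a, b]` as a function of `z = i v`. -/
noncomputable def FI (W a b : ℝ) (z : ℂ) : ℂ := ∫ x in a..b, gz W x z

/-- The density of the normal distribution with mean `x` and variance `1/W²`. -/
noncomputable def nd (W x y : ℝ) : ℝ :=
  W / Real.sqrt (2 * Real.pi) * Real.exp (-(W ^ 2 / 2) * (y - x) ^ 2)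

/-- The window `c(y)`. -/
noncomputable def cw (W h y : ℝ) : ℝ := ∫ x in (-h)..h, nd W x y

/-- The Fourier transform (as in `plancherel_real`). -/
noncomputable def fh (g : ℝ → ℂ) (v : ℝ) : ℂ := ∫ s : ℝ, g s * Complex.exp (-((v : ℂ) * s * I))

/-- The convolution of `g` with the kernel `(1/2π) ∫_{x ∈ [a,b]} gk W x`. -/
noncomputable def QQ (g : ℝ → ℂ) (W a b t : ℝ) : ℂ :=
  (1 / (2 * Real.pi) : ℂ) * ∫ x in a..b, ∫ s : ℝ, g s * gk W x (t - s)

/-- The same for `f` on `(0, ∞)`. -/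
noncomputable def PP (f : ℝ → ℂ) (W a b t : ℝ) : ℂ :=
  (1 / (2 * Real.pi) : ℂ) * ∫ x in a..b, ∫ v in Set.Ioi (0 : ℝ), f v * gk W x (t - v)

/-- The truncation of `f` to `(0, z]`. -/
noncomputable def cut (f : ℝ → ℂ) (z : ℝ) : ℝ → ℂ := (Set.Ioc 0 z).indicator f

end Pool.Agent.SK.E
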