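import Mathlib
import Pool.Agent.Lib.MP_9cfc0a_nt.EMFinal
import Pool.Agent.Lib.MP_9cfc0a_nt.SO.A1a
import Pool.Agent.Lib.MP_9cfc0a_nt.SO.A1b

set_option autoImplicit false

namespace MP9cfc0a.SK

open Complex MeasureTheory Pool.Agent.EM Pool.Agent.SO

lemma F2_int {q r : ℕ} (χ : DirichletCharacter ℂ q) (ψ : DirichletCharacter ℂ r) (X Y : ℝ)
    (hX : 1 ≤ X) :
    IntegrableOn (fun x : ℝ => ‖psiC χ x - psiC ψ x‖ ^ 2 / x ^ 2) (Set.Ioc X Y) := by
  refine Measure.integrableOn_of_bounded (M := 144) (by simp) ?_ ?_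
  · exact ((((psiC_measurable χ).sub (psiC_measurable ψ)).norm.pow_const 2).div
      (by fun_prop)).aestronglyMeasurable
  · refine (ae_restrict_iff' measurableSet_Ioc).mpr (Filter.Eventually.of_forall fun x hx => ?_)
    have hx1 : 1 ≤ x := by linarith [hx.1]
    rw [Real.norm_of_nonneg (by positivity), div_le_iff₀ (by positivity)]
    have h1 := psiC_le q χ x (by linarith)
    have h2 := psiC_le r ψ x (by linarith)
    have h3 : ‖psiC χ x - psiC ψ x‖ ≤ 12 * x := (norm_sub_le _ _).trans (by linarith)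
    calc ‖psiC χ x - psiC ψ x‖ ^ 2 ≤ (12 * x) ^ 2 := by gcongr
      _ = 144 * x ^ 2 := by ring

/-- F2. The difference between a character and its primitive character is negligible. -/
theorem diff_energy (q : ℕ) [NeZero q] (hq : 3 ≤ q) (χ : DirichletCharacter ℂ q) (Y : ℝ) :
    ∫ x in Set.Ioc 1 Y, ‖psiC χ.primitiveCharacter x - psiC χ x‖ ^ 2 / x ^ 2 ≤
      272 * (Real.log q) ^ (3 / 2 : ℝ) := by
  set L := Real.log q with hL
  have hq3 : (3 : ℝ) ≤ q := by exact_mod_cast hq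
  have hL1 : 1 ≤ L := by
    rw [hL, Real.le_log_iff_exp_le (by linarith)]
    exact Real.exp_one_lt_d9.le.trans (by linarith)
  set Z := max Y L with hZ
  have hLZ : L ≤ Z := le_max_right _ _
  set g : ℝ → ℝ := fun x => ‖psiC χ.primitiveCharacter x - psiC χ x‖ ^ 2 / x ^ 2 with hg
  have hg0 : ∀ x, 0 ≤ g x := fun x => by positivity
  have i1 : IntegrableOn g (Set.Ioc 1 Z) := F2_int _ _ 1 Z le_rfl
  have iA : IntegrableOn g (Set.Ioc 1 L) := F2_int _ _ 1 L le_rfl
  have iB : IntegrableOn g (Set.Ioc L Z) := F2_int _ _ L Z hL1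
  have h1 : ∫ x in Set.Ioc 1 Y, g x ≤ ∫ x in Set.Ioc 1 Z, g x := by
    refine setIntegral_mono_set i1 (Filter.Eventually.of_forall hg0) ?_
    exact (Set.Ioc_subset_Ioc_right (le_max_left _ _)).eventuallyLE
  have h2 : ∫ x in Set.Ioc 1 Z, g x = (∫ x in Set.Ioc 1 L, g x) + ∫ x in Set.Ioc L Z, g x := by
    rw [← setIntegral_union (Set.Ioc_disjoint_Ioc_of_le le_rfl) measurableSet_Ioc iA iB,
      Set.Ioc_union_Ioc_eq_Ioc hL1 hLZ]
  have h3 : ∫ x in Set.Ioc 1 L, g x ≤ 144 * L := by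
    have h4 : ∫ x in Set.Ioc 1 L, g x ≤ ∫ _x in Set.Ioc 1 L, (144 : ℝ) := by
      refine setIntegral_mono_on iA (by simp) measurableSet_Ioc fun x hx => ?_
      have hx1 : 1 ≤ x := by linarith [hx.1]
      rw [hg, div_le_iff₀ (by positivity)]
      have h1 := psiC_le _ χ.primitiveCharacter x (by linarith)
      have h2 := psiC_le _ χ x (by linarith)
      have h3 : ‖psiC χ.primitiveCharacter x - psiC χ x‖ ≤ 12 * x :=
        (norm_sub_le _ _).trans (by linarith)
      calc ‖psiC χ.primitiveCharacter x - psiC χ x‖ ^ 2 ≤ (12 * x) ^ 2 := by gcongr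
        _ = 144 * x ^ 2 := by ring
    refine h4.trans ?_
    rw [setIntegral_const]
    simp only [Measure.real, Real.volume_Ioc, smul_eq_mul]
    rw [ENNReal.toReal_ofReal (by linarith)]
    nlinarith
  have h5 : ∫ x in Set.Ioc L Z, g x ≤ 128 * L ^ 2 * L ^ (-(1 / 2) : ℝ) := by
    obtain ⟨i3, h6⟩ := log_sq_tail L Z hL1
    have h7 : ∫ x in Set.Ioc L Z, g x ≤ ∫ x in Set.Ioc L Z, 4 * L ^ 2 * ((Real.log x) ^ 2 / x ^ 2) := by
      refine setIntegral_mono_on iB (i3.const_mul _) measurableSet_Ioc fun x hx => ?_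
      have hx1 : 1 ≤ x := by linarith [hx.1]
      have h8 := primitive_diff q χ x hx1
      rw [hg, ← mul_div_assoc]
      refine div_le_div_of_nonneg_right ?_ (by positivity)
      calc ‖psiC χ.primitiveCharacter x - psiC χ x‖ ^ 2 ≤ (2 * Real.log q * Real.log x) ^ 2 := by
            gcongr
        _ = 4 * L ^ 2 * Real.log x ^ 2 := by rw [hL]; ring
    refine h7.trans ?_
    rw [integral_const_mul]
    calc 4 * L ^ 2 * ∫ x in Set.Ioc L Z, Real.log x ^ 2 / x ^ 2
        ≤ 4 * L ^ 2 * (32 * L ^ (-(1 / 2) : ℝ)) := mul_le_mul_of_nonneg_left h6 (by positivity)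
      _ = _ := by ring
  have h8 : L ^ 2 * L ^ (-(1 / 2) : ℝ) = L ^ (3 / 2 : ℝ) := by
    rw [← Real.rpow_natCast, ← Real.rpow_add (by linarith)]
    norm_num
  have h9 : L ≤ L ^ (3 / 2 : ℝ) := by
    calc L = L ^ (1 : ℝ) := (Real.rpow_one L).symm
      _ ≤ L ^ (3 / 2 : ℝ) := Real.rpow_le_rpow_of_exponent_le hL1 (by norm_num)
  have h10 : 128 * L ^ 2 * L ^ (-(1 / 2) : ℝ) = 128 * L ^ (3 / 2 : ℝ) := by
    rw [← h8]; ring
  linarith

/-- The weighted energy of a character on `[1, y]`. -/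
noncomputable def En {q : ℕ} (χ : DirichletCharacter ℂ q) (y : ℝ) : ℝ :=
  ∫ x in Set.Ioc 1 y, (1 - Real.log x / Real.log y) * (‖psiC χ x‖ ^ 2 / x ^ 2)

lemma weight_mem (x y : ℝ) (hx : x ∈ Set.Ioc 1 y) :
    0 ≤ 1 - Real.log x / Real.log y ∧ 1 - Real.log x / Real.log y ≤ 1 := by
  have h1 : 1 < y := hx.1.trans_le hx.2
  have h2 : 0 < Real.log y := Real.log_pos h1
  have h3 : 0 ≤ Real.log x := Real.log_nonneg hx.1.le
  have h4 : Real.log x ≤ Real.log y := Real.log_le_log (by linarith [hx.1]) hx.2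
  constructor
  · rw [sub_nonneg, div_le_one h2]
    exact h4
  · have : 0 ≤ Real.log x / Real.log y := by positivity
    linarith

lemma integrable_weight (g : ℝ → ℝ) (y : ℝ) (hg : IntegrableOn g (Set.Ioc 1 y)) :
    IntegrableOn (fun x => (1 - Real.log x / Real.log y) * g x) (Set.Ioc 1 y) := by
  refine Integrable.bdd_mul (c := 1) hg ?_ ?_
  · have : Measurable (fun x : ℝ => 1 - Real.log x / Real.log y) := by fun_prop
    exact this.aestronglyMeasurable
  · refine (ae_restrict_iff' measurableSet_Ioc).mpr (Filter.Eventually.of_forall fun x hx => ?_)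
    have h := weight_mem x y hx
    rw [Real.norm_of_nonneg h.1]
    exact h.2

lemma En_nonneg {q : ℕ} (χ : DirichletCharacter ℂ q) (y : ℝ) : 0 ≤ En χ y := by
  refine setIntegral_nonneg measurableSet_Ioc fun x hx => ?_
  exact mul_nonneg (weight_mem x y hx).1 (by positivity)

/-- F3. From the primitive character to the character. -/
theorem En_induced (q : ℕ) [NeZero q] (hq : 3 ≤ q) (χ : DirichletCharacter ℂ q) (y η : ℝ)
    (hη : 0 < η) (hη1 : η ≤ 1) :
    (1 - η) * En χ.primitiveCharacter y - 272 / η * (Real.log q) ^ (3 / 2 : ℝ) ≤ En χ y := by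
  have i1 := integrable_psiC_sq_window χ.primitiveCharacter 1 y le_rfl
  have i2 := integrable_psiC_sq_window χ 1 y le_rfl
  have i3 := F2_int χ.primitiveCharacter χ 1 y le_rfl
  have j1 := integrable_weight _ y i1
  have j2 := integrable_weight _ y i2
  have h1 := diff_energy q hq χ y
  have h2 : (1 - η) * En χ.primitiveCharacter y - 1 / η *
      (∫ x in Set.Ioc 1 y, ‖psiC χ.primitiveCharacter x - psiC χ x‖ ^ 2 / x ^ 2) ≤ En χ y := by
    unfold En
    rw [← integral_const_mul, ← integral_const_mul, ← integral_sub (j1.const_mul _) (i3.const_mul _)]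
    refine setIntegral_mono_on ((j1.const_mul _).sub (i3.const_mul _)) j2 measurableSet_Ioc
      fun x hx => ?_
    have hw := weight_mem x y hx
    set w := 1 - Real.log x / Real.log y
    set A := ‖psiC χ.primitiveCharacter x‖ with hA
    set B := ‖psiC χ x‖ with hB
    set D := ‖psiC χ.primitiveCharacter x - psiC χ x‖ with hD
    have hA0 : 0 ≤ A := norm_nonneg _
    have hB0 : 0 ≤ B := norm_nonneg _
    have hD0 : 0 ≤ D := norm_nonneg _
    have hAB : A ≤ B + D := by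
      have : psiC χ.primitiveCharacter x = psiC χ x + (psiC χ.primitiveCharacter x - psiC χ x) := by
        ring
      rw [hA, this]
      exact norm_add_le _ _
    have hkey : (1 - η) * A ^ 2 - 1 / η * D ^ 2 ≤ B ^ 2 := by
      -- A² ≤ (B + D)² ≤ (1+s) B² + (1+1/s) D², (1-η)(1+s) = 1
      have h3 : η * ((1 - η) * A ^ 2) ≤ η * B ^ 2 + D ^ 2 := by
        have h4 : A ^ 2 ≤ (B + D) ^ 2 := pow_le_pow_left₀ hA0 hAB 2
        have h5 : η * ((1 - η) * A ^ 2) ≤ η * ((1 - η) * (B + D) ^ 2) := by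
          have : 0 ≤ η * (1 - η) := mul_nonneg hη.le (by linarith)
          nlinarith
        nlinarith [sq_nonneg (η * B - (1 - η) * D)]
      rw [sub_le_iff_le_add]
      have h6 : (1 - η) * A ^ 2 ≤ (η * B ^ 2 + D ^ 2) / η := by
        rw [le_div_iff₀ hη]
        linarith
      calc (1 - η) * A ^ 2 ≤ (η * B ^ 2 + D ^ 2) / η := h6
        _ = _ := by field_simp
    have hx0 : 0 < x ^ 2 := by
      have := hx.1
      positivity
    show (1 - η) * (w * (A ^ 2 / x ^ 2)) - 1 / η * (D ^ 2 / x ^ 2) ≤ w * (B ^ 2 / x ^ 2)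
    have h7 : w * ((1 - η) * A ^ 2 - 1 / η * D ^ 2) ≤ w * B ^ 2 :=
      mul_le_mul_of_nonneg_left hkey hw.1
    have h8 : (1 - η) * (w * A ^ 2) - 1 / η * D ^ 2 ≤ w * B ^ 2 := by
      have h9 : w * (1 / η * D ^ 2) ≤ 1 / η * D ^ 2 := by
        have : 0 ≤ 1 / η * D ^ 2 := by positivity
        nlinarith [hw.2]
      nlinarith
    calc (1 - η) * (w * (A ^ 2 / x ^ 2)) - 1 / η * (D ^ 2 / x ^ 2)
        = ((1 - η) * (w * A ^ 2) - 1 / η * D ^ 2) / x ^ 2 := by ring
      _ ≤ (w * B ^ 2) / x ^ 2 := div_le_div_of_nonneg_right h8 hx0.le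
      _ = _ := by ring
  have h3 : 1 / η * (∫ x in Set.Ioc 1 y, ‖psiC χ.primitiveCharacter x - psiC χ x‖ ^ 2 / x ^ 2) ≤
      272 / η * (Real.log q) ^ (3 / 2 : ℝ) := by
    calc 1 / η * (∫ x in Set.Ioc 1 y, ‖psiC χ.primitiveCharacter x - psiC χ x‖ ^ 2 / x ^ 2)
        ≤ 1 / η * (272 * (Real.log q) ^ (3 / 2 : ℝ)) :=
          mul_le_mul_of_nonneg_left h1 (by positivity)
      _ = _ := by ring
  linarith

end MP9cfc0a.SK
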