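import Pool.Agent.Lib.MP_9cfc0a_nt.SK.RDefs

set_option autoImplicit false

namespace Pool.Agent.SK

open Complex MeasureTheory

/-- integral of `1/(p + q t)` along a segment with values of `k (p + q t)` in the slit plane. -/
theorem R2_edge (u v : ℝ) (huv : u ≤ v) (p q k : ℂ) (hq : q ≠ 0) (hk : k ≠ 0)
    (h : ∀ t : ℝ, u ≤ t → t ≤ v → 0 < (k * (p + (t : ℂ) * q)).re) :
    ∫ t in u..v, 1 / (p + (t : ℂ) * q) =
      (1 / q) * (log (k * (p + (v : ℂ) * q)) - log (k * (p + (u : ℂ) * q))) := by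
  have hne : ∀ t : ℝ, t ∈ Set.uIcc u v → p + (t : ℂ) * q ≠ 0 := by
    intro t ht h0
    rw [Set.uIcc_of_le huv] at ht
    have := h t ht.1 ht.2
    rw [h0] at this
    simp at this
  have hd : ∀ t ∈ Set.uIcc u v, HasDerivAt (fun t : ℝ => (1 / q) * log (k * (p + (t : ℂ) * q)))
      (1 / (p + (t : ℂ) * q)) t := by
    intro t ht
    have ht' := ht
    rw [Set.uIcc_of_le huv] at ht
    have h1 : HasDerivAt (fun t : ℝ => k * (p + (t : ℂ) * q)) (k * ((1 : ℂ) * q)) t := by
      have h2 : HasDerivAt (fun t : ℝ => (t : ℂ)) 1 t := Complex.ofRealCLM.hasDerivAt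
      exact ((h2.mul_const q).const_add p).const_mul k
    have h3 := (h1.clog_real (Or.inl (h t ht.1 ht.2))).const_mul (1 / q)
    have hne' := hne t ht'
    have h4 : (1 / q) * (k * ((1 : ℂ) * q) / (k * (p + (t : ℂ) * q))) = 1 / (p + (t : ℂ) * q) := by
      rw [one_mul, mul_div_mul_left _ _ hk, one_div_mul_eq_div, div_div, mul_comm, ← div_div, div_self hq]
    rw [h4] at h3
    exact h3
  rw [intervalIntegral.integral_eq_sub_of_hasDerivAt hd, ← mul_sub]
  apply ContinuousOn.intervalIntegrable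
  apply ContinuousOn.div continuousOn_const
  · fun_prop
  · exact hne

theorem R2_log_negI (w : ℂ) (h1 : 0 < w.re) (h2 : 0 < w.im) :
    log (-I * w) = log w - I * (Real.pi / 2) := by
  have hw : w ≠ 0 := by
    intro h; rw [h] at h1; simp at h1
  have ha := Complex.abs_arg_lt_pi_div_two_iff.2 (Or.inl h1)
  rw [abs_lt] at ha
  have hpi := Real.pi_pos
  rw [Complex.log_mul (neg_ne_zero.2 I_ne_zero) hw]
  · rw [Complex.log_neg_I]; ring
  · rw [Complex.arg_neg_I]
    have h3 : 0 ≤ arg w := Complex.arg_nonneg_iff.2 h2.le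
    constructor <;> linarith [ha.1, ha.2]

theorem R2_log_I (w : ℂ) (h1 : 0 < w.re) (h2 : w.im < 0) :
    log (I * w) = log w + I * (Real.pi / 2) := by
  have hw : w ≠ 0 := by
    intro h; rw [h] at h1; simp at h1
  have ha := Complex.abs_arg_lt_pi_div_two_iff.2 (Or.inl h1)
  rw [abs_lt] at ha
  have hpi := Real.pi_pos
  rw [Complex.log_mul I_ne_zero hw]
  · rw [Complex.log_I]; ring
  · rw [Complex.arg_I]
    have h3 : arg w < 0 := Complex.arg_neg_iff.2 h2
    constructor <;> linarith [ha.1, ha.2]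

/-- R2. The winding number of a rectangle. -/
theorem bd_inv (a T : ℝ) (z : ℂ) (h1 : |z.re| < a) (h2 : |z.im| < T) :
    bd a T (fun w => 1 / (w - z)) = 2 * Real.pi := by
  rw [abs_lt] at h1 h2
  have haa : -a ≤ a := by linarith [h1.1, h1.2]
  have hTT : -T ≤ T := by linarith [h2.1, h2.2]
  have e1 : (∫ v in (-T)..T, 1 / (((a : ℂ) + (v : ℂ) * I) - z)) =
      (1 / I) * (log ((a : ℂ) + (T : ℂ) * I - z) - log ((a : ℂ) - (T : ℂ) * I - z)) := by
    have := R2_edge (-T) T hTT ((a : ℂ) - z) I 1 I_ne_zero one_ne_zero (by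
      intro t _ _
      simp
      linarith [h1.2])
    rw [one_mul, one_mul] at this
    push_cast at this
    rw [show (a : ℂ) + (T : ℂ) * I - z = (a : ℂ) - z + (T : ℂ) * I by ring,
      show (a : ℂ) - (T : ℂ) * I - z = (a : ℂ) - z + -(T : ℂ) * I by ring, ← this]
    congr 1
    ext v
    congr 1
    ring
  have e2 : (∫ v in (-T)..T, 1 / ((-(a : ℂ) + (v : ℂ) * I) - z)) =
      (1 / I) * (log (-(-(a : ℂ) + (T : ℂ) * I - z)) - log (-(-(a : ℂ) - (T : ℂ) * I - z))) := by
    have := R2_edge (-T) T hTT (-(a : ℂ) - z) I (-1) I_ne_zero (by norm_num) (by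
      intro t _ _
      simp
      linarith [h1.1])
    rw [neg_one_mul, neg_one_mul] at this
    push_cast at this
    rw [show -(a : ℂ) + (T : ℂ) * I - z = -(a : ℂ) - z + (T : ℂ) * I by ring,
      show -(a : ℂ) - (T : ℂ) * I - z = -(a : ℂ) - z + -(T : ℂ) * I by ring, ← this]
    congr 1
    ext v
    congr 1
    ring
  have e3 : (∫ x in (-a)..a, 1 / (((x : ℂ) - (T : ℂ) * I) - z)) =
      log (I * ((a : ℂ) - (T : ℂ) * I - z)) - log (I * (-(a : ℂ) - (T : ℂ) * I - z)) := by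
    have := R2_edge (-a) a haa (-(T : ℂ) * I - z) 1 I one_ne_zero I_ne_zero (by
      intro t _ _
      simp
      linarith [h2.1])
    push_cast at this
    rw [show (a : ℂ) - (T : ℂ) * I - z = -(T : ℂ) * I - z + (a : ℂ) * 1 by ring,
      show -(a : ℂ) - (T : ℂ) * I - z = -(T : ℂ) * I - z + -(a : ℂ) * 1 by ring]
    rw [div_one, one_mul] at this
    rw [← this]
    congr 1
    ext v
    congr 1
    ring
  have e4 : (∫ x in (-a)..a, 1 / (((x : ℂ) + (T : ℂ) * I) - z)) =
      log (-I * ((a : ℂ) + (T : ℂ) * I - z)) - log (-I * (-(a : ℂ) + (T : ℂ) * I - z)) := by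
    have := R2_edge (-a) a haa ((T : ℂ) * I - z) 1 (-I) one_ne_zero (neg_ne_zero.2 I_ne_zero) (by
      intro t _ _
      simp
      linarith [h2.2])
    push_cast at this
    rw [show (a : ℂ) + (T : ℂ) * I - z = (T : ℂ) * I - z + (a : ℂ) * 1 by ring,
      show -(a : ℂ) + (T : ℂ) * I - z = (T : ℂ) * I - z + -(a : ℂ) * 1 by ring]
    rw [div_one, one_mul] at this
    rw [← this]
    congr 1
    ext v
    congr 1
    ring
  have l1 : log (-I * ((a : ℂ) + (T : ℂ) * I - z)) =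
      log ((a : ℂ) + (T : ℂ) * I - z) - I * (Real.pi / 2) :=
    R2_log_negI _ (by simp; linarith [h1.2]) (by simp; linarith [h2.2])
  have l2 : log (I * ((a : ℂ) - (T : ℂ) * I - z)) =
      log ((a : ℂ) - (T : ℂ) * I - z) + I * (Real.pi / 2) :=
    R2_log_I _ (by simp; linarith [h1.2]) (by simp; linarith [h2.1])
  have l3 : log (-I * (-(a : ℂ) + (T : ℂ) * I - z)) =
      log (-(-(a : ℂ) + (T : ℂ) * I - z)) + I * (Real.pi / 2) := by
    rw [show -I * (-(a : ℂ) + (T : ℂ) * I - z) = I * (-(-(a : ℂ) + (T : ℂ) * I - z)) by ring]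
    exact R2_log_I _ (by simp; linarith [h1.1]) (by simp; linarith [h2.2])
  have l4 : log (I * (-(a : ℂ) - (T : ℂ) * I - z)) =
      log (-(-(a : ℂ) - (T : ℂ) * I - z)) - I * (Real.pi / 2) := by
    rw [show I * (-(a : ℂ) - (T : ℂ) * I - z) = -I * (-(-(a : ℂ) - (T : ℂ) * I - z)) by ring]
    exact R2_log_negI _ (by simp; linarith [h1.1]) (by simp; linarith [h2.1])
  unfold bd
  rw [e1, e2, e3, e4, l1, l2, l3, l4]
  field_simp
  ring

end Pool.Agent.SK
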