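import Pool.Agent.Lib.MP_9cfc0a_nt.SK.RDefs

set_option autoImplicit false

namespace Pool.Agent.SK

open Complex MeasureTheory

theorem R3A_right (a T : ℝ) (ha : 0 ≤ a) (hT : 0 ≤ T) (v : ℝ) (hv : v ∈ Set.uIcc (-T) T) :
    Bd a T ((a : ℂ) + (v : ℂ) * I) := by
  rw [Set.uIcc_of_le (by linarith)] at hv
  left
  simp only [add_re, ofReal_re, mul_re, I_re, mul_zero, ofReal_im, I_im, mul_one, sub_self, add_zero,
    add_im, mul_im, zero_add]
  exact ⟨abs_of_nonneg ha, abs_le.2 ⟨hv.1, hv.2⟩⟩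

theorem R3A_left (a T : ℝ) (ha : 0 ≤ a) (hT : 0 ≤ T) (v : ℝ) (hv : v ∈ Set.uIcc (-T) T) :
    Bd a T (-(a : ℂ) + (v : ℂ) * I) := by
  rw [Set.uIcc_of_le (by linarith)] at hv
  left
  simp only [add_re, neg_re, ofReal_re, mul_re, I_re, mul_zero, ofReal_im, I_im, mul_one, sub_self,
    add_zero, add_im, neg_im, mul_im, zero_add, neg_zero, abs_neg]
  exact ⟨abs_of_nonneg ha, abs_le.2 ⟨hv.1, hv.2⟩⟩

theorem R3A_bot (a T : ℝ) (ha : 0 ≤ a) (hT : 0 ≤ T) (x : ℝ) (hx : x ∈ Set.uIcc (-a) a) :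
    Bd a T ((x : ℂ) - (T : ℂ) * I) := by
  rw [Set.uIcc_of_le (by linarith)] at hx
  right
  simp only [sub_re, ofReal_re, mul_re, I_re, mul_zero, ofReal_im, I_im, mul_one, sub_self, sub_zero,
    sub_im, mul_im, zero_add, zero_sub, add_zero, abs_neg]
  exact ⟨abs_le.2 ⟨hx.1, hx.2⟩, abs_of_nonneg hT⟩

theorem R3A_top (a T : ℝ) (ha : 0 ≤ a) (hT : 0 ≤ T) (x : ℝ) (hx : x ∈ Set.uIcc (-a) a) :
    Bd a T ((x : ℂ) + (T : ℂ) * I) := by
  rw [Set.uIcc_of_le (by linarith)] at hx
  right
  simp only [add_re, ofReal_re, mul_re, I_re, mul_zero, ofReal_im, I_im, mul_one, sub_self, add_zero,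
    add_im, mul_im, zero_add]
  exact ⟨abs_le.2 ⟨hx.1, hx.2⟩, abs_of_nonneg hT⟩

/-- R3a. `bd` only depends on the values on the boundary. PROOF. `intervalIntegral.integral_congr`, four times (on the
edges: `|Re| = a`, `|Im| ≤ T` resp. `|Re| ≤ a`, `|Im| = T`). -/
theorem bd_congr (a T : ℝ) (ha : 0 ≤ a) (hT : 0 ≤ T) (F G : ℂ → ℂ) (h : ∀ w, Bd a T w → F w = G w) :
    bd a T F = bd a T G := by
  have h1 : ∫ v in (-T)..T, F ((a : ℂ) + (v : ℂ) * I) = ∫ v in (-T)..T, G ((a : ℂ) + (v : ℂ) * I) :=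
    intervalIntegral.integral_congr fun v hv => h _ (R3A_right a T ha hT v hv)
  have h2 : ∫ v in (-T)..T, F (-(a : ℂ) + (v : ℂ) * I) = ∫ v in (-T)..T, G (-(a : ℂ) + (v : ℂ) * I) :=
    intervalIntegral.integral_congr fun v hv => h _ (R3A_left a T ha hT v hv)
  have h3 : ∫ x in (-a)..a, F ((x : ℂ) - (T : ℂ) * I) = ∫ x in (-a)..a, G ((x : ℂ) - (T : ℂ) * I) :=
    intervalIntegral.integral_congr fun v hv => h _ (R3A_bot a T ha hT v hv)
  have h4 : ∫ x in (-a)..a, F ((x : ℂ) + (T : ℂ) * I) = ∫ x in (-a)..a, G ((x : ℂ) + (T : ℂ) * I) :=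
    intervalIntegral.integral_congr fun v hv => h _ (R3A_top a T ha hT v hv)
  unfold bd
  rw [h1, h2, h3, h4]

/-- R3b. PROOF. The edges are continuous images of intervals, so all four functions are interval integrable
(`ContinuousOn.intervalIntegrable`); `intervalIntegral.integral_add`; induction for finite sums. -/
theorem bd_add (a T : ℝ) (ha : 0 ≤ a) (hT : 0 ≤ T) (F G : ℂ → ℂ) (hF : ∀ w, Bd a T w → ContinuousAt F w)
    (hG : ∀ w, Bd a T w → ContinuousAt G w) : bd a T (fun w => F w + G w) = bd a T F + bd a T G := by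
  have key : ∀ (H : ℂ → ℂ), (∀ w, Bd a T w → ContinuousAt H w) →
      IntervalIntegrable (fun v : ℝ => H ((a : ℂ) + (v : ℂ) * I)) volume (-T) T ∧
      IntervalIntegrable (fun v : ℝ => H (-(a : ℂ) + (v : ℂ) * I)) volume (-T) T ∧
      IntervalIntegrable (fun v : ℝ => H ((v : ℂ) - (T : ℂ) * I)) volume (-a) a ∧
      IntervalIntegrable (fun v : ℝ => H ((v : ℂ) + (T : ℂ) * I)) volume (-a) a := by
    intro H hH
    refine ⟨?_, ?_, ?_, ?_⟩
    · refine ContinuousOn.intervalIntegrable fun v hv => ContinuousAt.continuousWithinAt ?_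
      have hc : ContinuousAt (fun v : ℝ => (a : ℂ) + (v : ℂ) * I) v :=
        Continuous.continuousAt (by fun_prop)
      exact ContinuousAt.comp (f := fun v : ℝ => (a : ℂ) + (v : ℂ) * I) (g := H)
        (hH _ (R3A_right a T ha hT v hv)) hc
    · refine ContinuousOn.intervalIntegrable fun v hv => ContinuousAt.continuousWithinAt ?_
      have hc : ContinuousAt (fun v : ℝ => -(a : ℂ) + (v : ℂ) * I) v :=
        Continuous.continuousAt (by fun_prop)
      exact ContinuousAt.comp (f := fun v : ℝ => -(a : ℂ) + (v : ℂ) * I) (g := H)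
        (hH _ (R3A_left a T ha hT v hv)) hc
    · refine ContinuousOn.intervalIntegrable fun v hv => ContinuousAt.continuousWithinAt ?_
      have hc : ContinuousAt (fun v : ℝ => (v : ℂ) - (T : ℂ) * I) v :=
        Continuous.continuousAt (by fun_prop)
      exact ContinuousAt.comp (f := fun v : ℝ => (v : ℂ) - (T : ℂ) * I) (g := H)
        (hH _ (R3A_bot a T ha hT v hv)) hc
    · refine ContinuousOn.intervalIntegrable fun v hv => ContinuousAt.continuousWithinAt ?_
      have hc : ContinuousAt (fun v : ℝ => (v : ℂ) + (T : ℂ) * I) v :=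
        Continuous.continuousAt (by fun_prop)
      exact ContinuousAt.comp (f := fun v : ℝ => (v : ℂ) + (T : ℂ) * I) (g := H)
        (hH _ (R3A_top a T ha hT v hv)) hc
  obtain ⟨f1, f2, f3, f4⟩ := key F hF
  obtain ⟨g1, g2, g3, g4⟩ := key G hG
  unfold bd
  rw [intervalIntegral.integral_add f1 g1, intervalIntegral.integral_add f2 g2,
    intervalIntegral.integral_add f3 g3, intervalIntegral.integral_add f4 g4]
  ring

/-- R3c. PROOF. `intervalIntegral.integral_const_mul`. -/
theorem bd_const_mul (a T : ℝ) (c : ℂ) (G : ℂ → ℂ) : bd a T (fun w => c * G w) = c * bd a T G := by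
  unfold bd
  rw [intervalIntegral.integral_const_mul, intervalIntegral.integral_const_mul,
    intervalIntegral.integral_const_mul, intervalIntegral.integral_const_mul]
  ring

/-- R3d. PROOF. Induction over the finset with `bd_add` (the empty sum is the zero function, `bd = 0`). -/
theorem bd_sum {ι : Type*} (s : Finset ι) (a T : ℝ) (ha : 0 ≤ a) (hT : 0 ≤ T) (F : ι → ℂ → ℂ)
    (hF : ∀ i ∈ s, ∀ w, Bd a T w → ContinuousAt (F i) w) :
    bd a T (fun w => ∑ i ∈ s, F i w) = ∑ i ∈ s, bd a T (F i) := by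
  classical
  induction s using Finset.induction_on with
  | empty =>
    simp only [Finset.sum_empty]
    unfold bd
    simp
  | insert i s hi ih =>
    rw [Finset.sum_insert hi, ← ih fun j hj => hF j (Finset.mem_insert_of_mem hj),
      ← bd_add a T ha hT (F i) (fun w => ∑ j ∈ s, F j w) (hF i (Finset.mem_insert_self i s)) ?_]
    · refine congrArg (bd a T) (funext fun w => ?_)
      rw [Finset.sum_insert hi]
    · intro w hw
      exact tendsto_finsetSum s fun j hj => hF j (Finset.mem_insert_of_mem hj) w hw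

end Pool.Agent.SK
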