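import Pool.Agent.Lib.MP_9cfc0a_nt.SK.R1
import Pool.Agent.Lib.MP_9cfc0a_nt.SK.R2
import Pool.Agent.Lib.MP_9cfc0a_nt.SK.R3A

set_option autoImplicit false

namespace Pool.Agent.SK

open Complex MeasureTheory

/-- R3e. Cauchy's formula on a rectangle. -/
theorem bd_cauchy (a T : ℝ) (z : ℂ) (h1 : |z.re| < a) (h2 : |z.im| < T) (Φ : ℂ → ℂ)
    (hΦ : Differentiable ℂ Φ) : bd a T (fun w => Φ w / (w - z)) = 2 * Real.pi * Φ z := by
  have ha : 0 ≤ a := (abs_nonneg _).trans h1.le
  have hT : 0 ≤ T := (abs_nonneg _).trans h2.le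
  have hne : ∀ w, Bd a T w → w ≠ z := by
    rintro w (h | h) rfl
    · exact absurd h.1 h1.ne
    · exact absurd h.2 h2.ne
  have hds : Differentiable ℂ (dslope Φ z) := by
    rw [← differentiableOn_univ]
    exact (Complex.differentiableOn_dslope Filter.univ_mem).2 hΦ.differentiableOn
  have hc : bd a T (fun w => Φ w / (w - z)) =
      bd a T (fun w => dslope Φ z w + Φ z * (1 / (w - z))) := by
    apply bd_congr a T ha hT
    intro w hw
    have hw' := hne w hw
    have h3 : w - z ≠ 0 := sub_ne_zero.2 hw'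
    rw [dslope_of_ne _ hw', slope_def_field]
    field_simp
    ring
  rw [hc, bd_add a T ha hT _ _ (fun w _ => hds.continuous.continuousAt) (fun w hw => by
      have h3 : w - z ≠ 0 := sub_ne_zero.2 (hne w hw)
      exact continuousAt_const.mul (continuousAt_const.div (by fun_prop) h3)),
    bd_zero a T ha hT _ (fun w _ _ => hds w), zero_add, bd_const_mul, bd_inv a T z h1 h2]
  ring

/-- R3f. -/
theorem bd_out (a T : ℝ) (ha : 0 ≤ a) (hT : 0 ≤ T) (z : ℂ) (h : a < |z.re| ∨ T < |z.im|) (Φ : ℂ → ℂ)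
    (hΦ : Differentiable ℂ Φ) : bd a T (fun w => Φ w / (w - z)) = 0 := by
  apply bd_zero a T ha hT
  intro w h1 h2
  have hne : w ≠ z := by
    rintro rfl
    rcases h with h | h <;> linarith
  exact (hΦ w).div (by fun_prop) (sub_ne_zero.2 hne)

end Pool.Agent.SK
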