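import Pool.Agent.Lib.MP_9cfc0a_nt.SK.ZFa
import Pool.Agent.Lib.MP_9cfc0a_nt.SO.Moments

set_option autoImplicit false

/-! Part A: mean values of circle averages. -/

namespace Pool.Agent.SK

open Complex MeasureTheory
open Pool.Agent.SO (pt prim MM NN)

/-- `L M - 1` -/
noncomputable def FF (r : ℕ) [NeZero r] (χ : DirichletCharacter ℂ r) (s : ℂ) : ℂ :=
  χ.LFunction s * MM r χ s - 1

/-- `L' M` -/
noncomputable def DF (r : ℕ) [NeZero r] (χ : DirichletCharacter ℂ r) (s : ℂ) : ℂ :=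
  deriv χ.LFunction s * MM r χ s

theorem MM_diff (r : ℕ) (χ : DirichletCharacter ℂ r) : Differentiable ℂ (MM r χ) := by
  unfold MM
  refine Differentiable.fun_sum fun d hd => ?_
  refine Differentiable.mul (by fun_prop) ?_
  intro s
  refine DifferentiableAt.const_cpow (by fun_prop) (Or.inl ?_)
  have := (Finset.mem_Icc.1 hd).1
  exact_mod_cast (by omega : d ≠ 0)

theorem FF_diff {r : ℕ} [NeZero r] (χ : DirichletCharacter ℂ r) (h : χ ≠ 1) :
    Differentiable ℂ (FF r χ) := by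
  unfold FF
  exact ((χ.differentiable_LFunction h).mul (MM_diff r χ)).sub_const 1

theorem DF_diff {r : ℕ} [NeZero r] (χ : DirichletCharacter ℂ r) (h : χ ≠ 1) :
    Differentiable ℂ (DF r χ) := by
  unfold DF
  have h1 : Differentiable ℂ (deriv χ.LFunction) := by
    have := (χ.differentiable_LFunction h).contDiff (n := 2)
    have h2 : ContDiff ℂ 1 (deriv χ.LFunction) := by
      rw [show (2 : WithTop ℕ∞) = 1 + 1 from rfl, contDiff_succ_iff_deriv] at this
      exact this.2.2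
    exact h2.differentiable (by norm_num)
  exact h1.mul (MM_diff r χ)

theorem pt_add (r : ℕ) (k t : ℝ) (w : ℂ) :
    pt r k t + w / (Real.log r : ℂ) = pt r (k + w.re) (t + w.im / Real.log r) := by
  unfold pt
  conv_lhs => rw [← Complex.re_add_im w]
  push_cast
  ring

theorem avgF : ∃ (A : ℕ) (C : ℝ) (r₀ : ℕ), 1 ≤ C ∧ 3 ≤ r₀ ∧ ∀ (r : ℕ) [NeZero r], r₀ ≤ r →
    ∀ k t : ℝ, 3 ≤ k →
    ∑ χ ∈ prim r, Real.circleAverage (fun w => ‖FF r χ (pt r k t + w / (Real.log r : ℂ))‖ ^ 2) 0 3 ≤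
      C * Real.exp (-(k / 8)) * (1 + |t|) ^ A * NN r := by
  obtain ⟨A, C, r₀, hC, h⟩ := SO.moment_b
  refine ⟨A, C * 3 * 4 ^ A, max r₀ 3, ?_, le_max_right _ _, ?_⟩
  · have : (1 : ℝ) ≤ 4 ^ A := one_le_pow₀ (by norm_num)
    nlinarith
  intro r _ hr k t hk
  have hr3 : 3 ≤ r := (le_max_right _ _).trans hr
  have hL : 1 ≤ Real.log r := by
    rw [Real.le_log_iff_exp_le (by positivity)]
    have h1 := Real.exp_one_lt_d9
    have : (3 : ℝ) ≤ r := by exact_mod_cast hr3
    linarith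
  refine sum_avg_le _ _ (fun χ hχ => ?_) 3 _ (by norm_num) fun w hw => ?_
  · exact (FF_diff χ (ZF_prim_ne_one (by omega) hχ)).continuous.comp (by fun_prop)
  · have hre : |w.re| ≤ 3 := (Complex.abs_re_le_norm w).trans hw.le
    have him : |w.im| ≤ 3 := (Complex.abs_im_le_norm w).trans hw.le
    have hb : 0 ≤ k + w.re := by linarith [(abs_le.1 hre).1]
    have h1 := h r ((le_max_left _ _).trans hr) (k + w.re) (t + w.im / Real.log r) hb
    have e : ∀ χ ∈ prim r, ‖FF r χ (pt r k t + w / (Real.log r : ℂ))‖ ^ 2 =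
        ‖χ.LFunction (pt r (k + w.re) (t + w.im / Real.log r)) *
          MM r χ (pt r (k + w.re) (t + w.im / Real.log r)) - 1‖ ^ 2 := by
      intro χ _
      rw [pt_add]; rfl
    rw [Finset.sum_congr rfl e]
    refine h1.trans ?_
    have hN : 0 ≤ NN r := by unfold NN; positivity
    have h2 : Real.exp (-((k + w.re) / 8)) ≤ 3 * Real.exp (-(k / 8)) := by
      have : Real.exp (-((k + w.re) / 8)) = Real.exp (-(w.re / 8)) * Real.exp (-(k / 8)) := by
        rw [← Real.exp_add]; congr 1; ring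
      rw [this]
      gcongr
      have h3 : Real.exp (-(w.re / 8)) ≤ Real.exp 1 := Real.exp_le_exp.2 (by linarith [(abs_le.1 hre).1])
      linarith [Real.exp_one_lt_d9]
    have h3 : 1 + |t + w.im / Real.log r| ≤ 4 * (1 + |t|) := by
      have h4 : |w.im / Real.log r| ≤ 3 := by
        rw [abs_div, abs_of_pos (by linarith : 0 < Real.log r), div_le_iff₀ (by linarith)]
        nlinarith
      have := abs_add_le t (w.im / Real.log r)
      linarith [abs_nonneg t]
    calc C * Real.exp (-((k + w.re) / 8)) * (1 + |t + w.im / Real.log r|) ^ A * NN r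
        ≤ C * (3 * Real.exp (-(k / 8))) * (4 * (1 + |t|)) ^ A * NN r := by gcongr
      _ = C * 3 * 4 ^ A * Real.exp (-(k / 8)) * (1 + |t|) ^ A * NN r := by rw [mul_pow]; ring

theorem avgD : ∃ (A : ℕ) (C : ℝ) (r₀ : ℕ), 1 ≤ C ∧ 3 ≤ r₀ ∧ ∀ (r : ℕ) [NeZero r], r₀ ≤ r →
    ∀ k t : ℝ, 6 ≤ k → k + 3 ≤ Real.log r / 4 →
    ∑ χ ∈ prim r, Real.circleAverage (fun w => ‖DF r χ (pt r k t + w / (Real.log r : ℂ))‖ ^ 2) 0 3 ≤
      C * Real.log r ^ 2 / k ^ 2 * (1 + |t|) ^ A * NN r := by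
  obtain ⟨A, C, r₀, hC, h⟩ := SO.moment_c
  refine ⟨A, C * 4 * 4 ^ A, max r₀ 3, ?_, le_max_right _ _, ?_⟩
  · have : (1 : ℝ) ≤ 4 ^ A := one_le_pow₀ (by norm_num)
    nlinarith
  intro r _ hr k t hk hk2
  have hr3 : 3 ≤ r := (le_max_right _ _).trans hr
  have hL : 1 ≤ Real.log r := by
    rw [Real.le_log_iff_exp_le (by positivity)]
    have h1 := Real.exp_one_lt_d9
    have : (3 : ℝ) ≤ r := by exact_mod_cast hr3
    linarith
  refine sum_avg_le _ _ (fun χ hχ => ?_) 3 _ (by norm_num) fun w hw => ?_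
  · exact (DF_diff χ (ZF_prim_ne_one (by omega) hχ)).continuous.comp (by fun_prop)
  · have hre : |w.re| ≤ 3 := (Complex.abs_re_le_norm w).trans hw.le
    have him : |w.im| ≤ 3 := (Complex.abs_im_le_norm w).trans hw.le
    have hb : k / 2 ≤ k + w.re := by linarith [(abs_le.1 hre).1]
    have h1 := h r ((le_max_left _ _).trans hr) (k + w.re) (t + w.im / Real.log r) (by linarith)
      (by linarith [(abs_le.1 hre).2])
    have e : ∀ χ ∈ prim r, ‖DF r χ (pt r k t + w / (Real.log r : ℂ))‖ ^ 2 =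
        ‖deriv χ.LFunction (pt r (k + w.re) (t + w.im / Real.log r)) *
          MM r χ (pt r (k + w.re) (t + w.im / Real.log r))‖ ^ 2 := by
      intro χ _
      rw [pt_add]; rfl
    rw [Finset.sum_congr rfl e]
    refine h1.trans ?_
    have hN : 0 ≤ NN r := by unfold NN; positivity
    have h3 : 1 + |t + w.im / Real.log r| ≤ 4 * (1 + |t|) := by
      have h4 : |w.im / Real.log r| ≤ 3 := by
        rw [abs_div, abs_of_pos (by linarith : 0 < Real.log r), div_le_iff₀ (by linarith)]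
        nlinarith
      have := abs_add_le t (w.im / Real.log r)
      linarith [abs_nonneg t]
    calc C * Real.log r ^ 2 / (k + w.re) ^ 2 * (1 + |t + w.im / Real.log r|) ^ A * NN r
        ≤ C * Real.log r ^ 2 / (k / 2) ^ 2 * (4 * (1 + |t|)) ^ A * NN r := by gcongr
      _ = C * 4 * 4 ^ A * Real.log r ^ 2 / k ^ 2 * (1 + |t|) ^ A * NN r := by
        rw [mul_pow]
        field_simp
        ring

end Pool.Agent.SK
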