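import Pool.Agent.Lib.MP_9cfc0a_nt.Mg.G013

set_option autoImplicit false

namespace Pool.Agent.SK

open Complex MeasureTheory
open Pool.Agent.SO (prim NN)

/-- C1c. PROOF. `intervalIntegral.continuous_parametric_intervalIntegral_of_continuous'` with `PX_continuous`. -/
theorem PU_continuous (q : ℕ) (χ : DirichletCharacter ℂ q) (W a b : ℝ) (hW : 0 < W) :
    Continuous (fun t : ℝ => PU χ W a b t) := by
  unfold PU
  refine Continuous.mul continuous_const ?_
  have h := PX_continuous q χ W hW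
  refine intervalIntegral.continuous_parametric_intervalIntegral_of_continuous' (μ := volume)
    (f := fun (t x : ℝ) => PX χ W x t) ?_ a b
  exact h.comp (continuous_snd.prodMk continuous_fst)

theorem C1B_cs (F : ℝ → ℝ) (hF : Continuous F) (a b : ℝ) (hab : a ≤ b) :
    (∫ x in a..b, F x) ^ 2 ≤ (b - a) * ∫ x in a..b, F x ^ 2 := by
  rcases eq_or_lt_of_le hab with h | h
  · subst h; simp
  set m := (∫ x in a..b, F x) / (b - a) with hm
  have hba : 0 < b - a := by linarith
  have h0 : 0 ≤ ∫ x in a..b, (F x - m) ^ 2 :=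
    intervalIntegral.integral_nonneg hab fun x _ => sq_nonneg _
  have h1 : ∫ x in a..b, (F x - m) ^ 2 = (∫ x in a..b, F x ^ 2) - 2 * m * (∫ x in a..b, F x) +
      m ^ 2 * (b - a) := by
    have e : (fun x => (F x - m) ^ 2) = fun x => F x ^ 2 - 2 * m * F x + m ^ 2 := by
      funext x; ring
    rw [e, intervalIntegral.integral_add, intervalIntegral.integral_sub, intervalIntegral.integral_const_mul,
      intervalIntegral.integral_const, smul_eq_mul]
    · ring
    · exact (hF.pow 2).intervalIntegrable _ _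
    · exact (hF.const_mul _).intervalIntegrable _ _
    · exact ((hF.pow 2).sub (hF.const_mul _)).intervalIntegrable _ _
    · exact intervalIntegrable_const
  have h2 : m * (b - a) = ∫ x in a..b, F x := by rw [hm]; field_simp
  rw [h1] at h0
  have h3 : (∫ x in a..b, F x) ^ 2 ≤ (b - a) * ∫ x in a..b, F x ^ 2 := by
    have := mul_nonneg hba.le h0
    rw [← h2] at this ⊢
    nlinarith [this]
  exact h3

/-- C1d. PROOF. Cauchy-Schwarz on `[a, b]`: `‖∫_a^b F‖² ≤ (b - a) ∫_a^b ‖F‖²` (for continuous `F`; e.g. from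
`0 ≤ ∫∫ (‖F x‖ - ‖F y‖)²` or `MeasureTheory.integral_mul_le_Lp_mul_Lq`), `(2π)^{-2} ≤ 1`. -/
theorem PU_sq_le (q : ℕ) (χ : DirichletCharacter ℂ q) (W a b t : ℝ) (hW : 0 < W) (hab : a ≤ b) :
    ‖PU χ W a b t‖ ^ 2 ≤ (b - a) * ∫ x in a..b, ‖PX χ W x t‖ ^ 2 := by
  have hc : Continuous (fun x : ℝ => ‖PX χ W x t‖) :=
    ((PX_continuous q χ W hW).comp (continuous_id.prodMk continuous_const)).norm
  refine le_trans ?_ (C1B_cs (fun x => ‖PX χ W x t‖) hc a b hab)
  unfold PU
  have h1 : ‖∫ x in a..b, PX χ W x t‖ ≤ ∫ x in a..b, ‖PX χ W x t‖ :=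
    intervalIntegral.norm_integral_le_integral_norm hab
  have h2 : ‖(1 / (2 * Real.pi) : ℂ)‖ ≤ 1 := by
    have e : (1 / (2 * Real.pi) : ℂ) = ((1 / (2 * Real.pi) : ℝ) : ℂ) := by push_cast; ring
    rw [e, Complex.norm_real, Real.norm_of_nonneg (by positivity)]
    rw [div_le_one (by positivity)]
    linarith [Real.pi_gt_three]
  rw [norm_mul]
  have h3 : ‖(1 / (2 * Real.pi) : ℂ)‖ * ‖∫ x in a..b, PX χ W x t‖ ≤ ∫ x in a..b, ‖PX χ W x t‖ := by
    calc _ ≤ 1 * ‖∫ x in a..b, PX χ W x t‖ := mul_le_mul_of_nonneg_right h2 (norm_nonneg _)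
      _ ≤ _ := by rw [one_mul]; exact h1
  exact pow_le_pow_left₀ (by positivity) h3 2

theorem intervalIntegral_integral_swap_C1B (f : ℝ → ℝ → ℝ) (hf : Continuous (fun p : ℝ × ℝ => f p.1 p.2))
    (c d a b : ℝ) (hcd : c ≤ d) (hab : a ≤ b) :
    (∫ t in c..d, ∫ x in a..b, f t x) = ∫ x in a..b, ∫ t in c..d, f t x := by
  simp_rw [intervalIntegral.integral_of_le hcd, intervalIntegral.integral_of_le hab]
  refine integral_integral_swap ?_
  rw [Measure.prod_restrict]
  have h1 : IntegrableOn (fun p : ℝ × ℝ => f p.1 p.2) (Set.Icc c d ×ˢ Set.Icc a b)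
      ((volume : Measure ℝ).prod volume) := by
    exact hf.continuousOn.integrableOn_compact (isCompact_Icc.prod isCompact_Icc)
  exact h1.mono_set (Set.prod_mono Set.Ioc_subset_Icc_self Set.Ioc_subset_Icc_self)

/-- C1e. PROOF. `PU_sq_le`, integrate over `t`, exchange the integrals
(`intervalIntegral_integral_swap`-type lemma for continuous functions, or `MeasureTheory.integral_integral_swap` on
`Ioc × Ioc` with `PX_continuous`), and `[a, b] ⊆ [-T₀, T₀]` (`intervalIntegral.integral_mono_interval`, nonnegative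
integrand). -/
theorem PU_sq_int (q : ℕ) (χ : DirichletCharacter ℂ q) (W a b c d T₀ : ℝ) (hW : 0 < W) (hab : a ≤ b)
    (hcd : c ≤ d) (ha : -T₀ ≤ a) (hb : b ≤ T₀) :
    ∫ t in c..d, ‖PU χ W a b t‖ ^ 2 ≤ (b - a) * ∫ x in (-T₀)..T₀, ∫ t in c..d, ‖PX χ W x t‖ ^ 2 := by
  have hcont := PX_continuous q χ W hW
  have hc2 : Continuous (fun p : ℝ × ℝ => ‖PX χ W p.2 p.1‖ ^ 2) :=
    ((hcont.comp (continuous_snd.prodMk continuous_fst)).norm).pow 2
  have hc3 : Continuous (fun p : ℝ × ℝ => ‖PX χ W p.1 p.2‖ ^ 2) := hcont.norm.pow 2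
  have hPU := PU_continuous q χ W a b hW
  have hJ : Continuous (fun t : ℝ => ∫ x in a..b, ‖PX χ W x t‖ ^ 2) :=
    intervalIntegral.continuous_parametric_intervalIntegral_of_continuous' (μ := volume)
      (f := fun (t x : ℝ) => ‖PX χ W x t‖ ^ 2) hc2 a b
  have hK : Continuous (fun x : ℝ => ∫ t in c..d, ‖PX χ W x t‖ ^ 2) :=
    intervalIntegral.continuous_parametric_intervalIntegral_of_continuous' (μ := volume)
      (f := fun (x t : ℝ) => ‖PX χ W x t‖ ^ 2) hc3 c d
  have s1 : ∫ t in c..d, ‖PU χ W a b t‖ ^ 2 ≤ ∫ t in c..d, (b - a) * ∫ x in a..b, ‖PX χ W x t‖ ^ 2 := by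
    refine intervalIntegral.integral_mono_on hcd ((hPU.norm.pow 2).intervalIntegrable _ _)
      ((hJ.const_mul _).intervalIntegrable _ _) ?_
    intro t _
    exact PU_sq_le q χ W a b t hW hab
  refine s1.trans ?_
  rw [intervalIntegral.integral_const_mul]
  refine mul_le_mul_of_nonneg_left ?_ (by linarith)
  have s2 : (∫ t in c..d, ∫ x in a..b, ‖PX χ W x t‖ ^ 2) = ∫ x in a..b, ∫ t in c..d, ‖PX χ W x t‖ ^ 2 := by
    exact intervalIntegral_integral_swap_C1B (fun t x => ‖PX χ W x t‖ ^ 2) hc2 c d a b hcd hab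
  rw [s2]
  refine intervalIntegral.integral_mono_interval ha hab hb ?_ (hK.intervalIntegrable _ _)
  refine Filter.Eventually.of_forall fun x => ?_
  exact intervalIntegral.integral_nonneg hcd fun t _ => by positivity

end Pool.Agent.SK
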