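import Pool.Agent.Lib.MP_9cfc0a_nt.Mg.G012
import Pool.Agent.Lib.MP_9cfc0a_nt.SK.C1B

set_option autoImplicit false

namespace Pool.Agent.SK

open Complex MeasureTheory
open Pool.Agent.SO (prim NN)

private theorem M1E_core (ε h δ L Y Y' D I p : ℝ) (hε : 0 < ε) (hε1 : ε ≤ 1) (hh : h = ε / 100)
    (hδ : δ = ε ^ 2 / 2000) (hp3 : 3 < p) (hp4 : p < 3.15) (hL : 10 / ε ≤ L) (hLY' : L ≤ Y')
    (hLY : L / 2 ≤ Y) (hYY' : Y ≤ Y') (hY1 : (1 - δ) * Y' ≤ Y) (hD : 0 ≤ D)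
    (hI1 : 2 * p - δ ≤ I)
    (hmain : I * (h / (2 * p) * (L * Y - L ^ 2) - δ * (L * Y)) ≤ (2 * h * (1 + 12 * h) + δ) * (Y' / Y) * D + 1) :
    1 / 2 * L * (Y' - L) - ε * (L * Y') ≤ D := by
  have hL0 : 0 < L := lt_of_lt_of_le (by positivity) hL
  have hL1 : 10 ≤ ε * L := by
    rw [div_le_iff₀ hε] at hL
    linarith
  have hY0 : 0 < Y := by linarith
  have hY'0 : 0 < Y' := by linarith
  have hh0 : 0 < h := by rw [hh]; positivity
  have hδ0 : 0 < δ := by rw [hδ]; positivity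
  have hδ1 : δ ≤ 1 / 2000 := by
    rw [hδ]
    have : ε ^ 2 ≤ 1 := by nlinarith
    linarith
  have hp0 : 0 < p := by linarith
  set P := L * Y' with hP
  set Q := L * Y with hQ
  have hP0 : 0 < P := by positivity
  have hQ0 : 0 < Q := by positivity
  have hQP : Q ≤ P := by
    rw [hP, hQ]; exact mul_le_mul_of_nonneg_left hYY' hL0.le
  have hQP2 : (1 - δ) * P ≤ Q := by
    rw [hP, hQ]; nlinarith
  have hLP : L ^ 2 ≤ P := by
    rw [hP]; nlinarith
  set B := h / (2 * p) * (Q - L ^ 2) - δ * Q with hB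
  by_cases hB0 : B ≤ 0
  · -- first case
    have h1 : h * (Q - L ^ 2) ≤ 2 * p * (δ * Q) := by
      have e1 : h / (2 * p) * (Q - L ^ 2) ≤ δ * Q := by linarith
      have e2 : h * (Q - L ^ 2) = 2 * p * (h / (2 * p) * (Q - L ^ 2)) := by
        field_simp
      rw [e2]
      exact mul_le_mul_of_nonneg_left e1 (by positivity)
    have h2 : h * (Q - L ^ 2) ≤ 2 * p * δ * P := by
      have : 2 * p * (δ * Q) ≤ 2 * p * (δ * P) := by
        refine mul_le_mul_of_nonneg_left (mul_le_mul_of_nonneg_left hQP hδ0.le) (by positivity)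
      linarith
    -- h * (P - L^2) ≤ (2 p δ + h δ) P
    have h3 : h * (P - L ^ 2) ≤ (2 * p * δ + h * δ) * P := by
      have : h * (P - Q) ≤ h * (δ * P) := mul_le_mul_of_nonneg_left (by linarith) hh0.le
      nlinarith
    have h4 : 2 * p * δ + h * δ ≤ 2 * (ε * h) := by
      rw [hh, hδ]
      have e1 : 2 * p * (ε ^ 2 / 2000) ≤ 6.3 * (ε ^ 2 / 2000) := by nlinarith [sq_nonneg ε]
      have e2 : ε / 100 * (ε ^ 2 / 2000) ≤ ε ^ 2 / 2000 := by
        have : ε / 100 ≤ 1 := by linarith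
        have h5 : 0 ≤ ε ^ 2 / 2000 := by positivity
        nlinarith
      nlinarith [sq_nonneg ε]
    have h5 : h * (P - L ^ 2) ≤ h * (2 * ε * P) := by
      calc h * (P - L ^ 2) ≤ (2 * p * δ + h * δ) * P := h3
        _ ≤ 2 * (ε * h) * P := mul_le_mul_of_nonneg_right h4 hP0.le
        _ = h * (2 * ε * P) := by ring
    have h6 : P - L ^ 2 ≤ 2 * ε * P := le_of_mul_le_mul_left h5 hh0
    have h7 : 1 / 2 * L * (Y' - L) = 1 / 2 * (P - L ^ 2) := by rw [hP]; ring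
    rw [h7]
    linarith
  · push Not at hB0
    have hQL : 0 ≤ Q - L ^ 2 := by
      by_contra hc
      push Not at hc
      have e1 : h / (2 * p) * (Q - L ^ 2) ≤ 0 := by
        refine mul_nonpos_of_nonneg_of_nonpos (by positivity) hc.le
      have e2 : 0 < δ * Q := by positivity
      linarith
    set K := 2 * h * (1 + 12 * h) + δ with hK
    have hK0 : 0 < K := by rw [hK]; positivity
    have h1 : (2 * p - δ) * B ≤ K * (Y' / Y) * D + 1 :=
      (mul_le_mul_of_nonneg_right hI1 hB0.le).trans hmain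
    have h2 : h * (Q - L ^ 2) - 8 * δ * P ≤ (2 * p - δ) * B := by
      have e1 : (2 * p - δ) * B = h * (Q - L ^ 2) - 2 * p * δ * Q - δ * (h / (2 * p) * (Q - L ^ 2)) + δ ^ 2 * Q := by
        rw [hB]
        have : 2 * p * (h / (2 * p) * (Q - L ^ 2)) = h * (Q - L ^ 2) := by field_simp
        linear_combination this
      have e2 : h / (2 * p) * (Q - L ^ 2) ≤ P := by
        have f1 : h / (2 * p) ≤ 1 := by
          rw [div_le_one (by positivity)]
          rw [hh]; linarith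
        have f2 : Q - L ^ 2 ≤ P := by nlinarith [sq_nonneg L]
        calc h / (2 * p) * (Q - L ^ 2) ≤ 1 * (Q - L ^ 2) := mul_le_mul_of_nonneg_right f1 hQL
          _ ≤ P := by linarith
      have e3 : δ * (h / (2 * p) * (Q - L ^ 2)) ≤ δ * P := mul_le_mul_of_nonneg_left e2 hδ0.le
      have e4 : 2 * p * δ * Q ≤ 6.3 * (δ * P) := by
        have g1 : δ * Q ≤ δ * P := mul_le_mul_of_nonneg_left hQP hδ0.le
        have g2 : 0 ≤ δ * Q := by positivity
        nlinarith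
      have e5 : 0 ≤ δ ^ 2 * Q := by positivity
      have e6 : 0 ≤ δ * P := by positivity
      rw [e1]
      linarith
    have h3 : Y' / Y * (1 - δ) ≤ 1 := by
      rw [div_mul_eq_mul_div, div_le_one hY0]
      linarith
    have h4 : (1 - δ) * (h * (Q - L ^ 2) - 8 * δ * P - 1) ≤ K * D := by
      have e1 : h * (Q - L ^ 2) - 8 * δ * P - 1 ≤ K * (Y' / Y) * D := by linarith
      have e2 : 0 ≤ 1 - δ := by linarith
      calc (1 - δ) * (h * (Q - L ^ 2) - 8 * δ * P - 1) ≤ (1 - δ) * (K * (Y' / Y) * D) :=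
            mul_le_mul_of_nonneg_left e1 e2
        _ = (Y' / Y * (1 - δ)) * (K * D) := by ring
        _ ≤ 1 * (K * D) := mul_le_mul_of_nonneg_right h3 (by positivity)
        _ = K * D := one_mul _
    have h7 : 1 / 2 * L * (Y' - L) = 1 / 2 * (P - L ^ 2) := by rw [hP]; ring
    rw [h7]
    -- lower bound of the left side of h4
    have h5 : h * (P - L ^ 2) - (2 * h * δ + 8 * δ) * P - 1 ≤ K * D := by
      have e1 : h * (Q - L ^ 2) ≥ h * (P - L ^ 2) - h * δ * P := by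
        have : h * (Q - P) ≥ h * (-(δ * P)) := mul_le_mul_of_nonneg_left (by linarith) hh0.le
        nlinarith
      have e2 : δ * (h * (Q - L ^ 2)) ≤ h * δ * P := by
        have f2 : Q - L ^ 2 ≤ P := by nlinarith [sq_nonneg L]
        have : h * (Q - L ^ 2) ≤ h * P := mul_le_mul_of_nonneg_left f2 hh0.le
        have := mul_le_mul_of_nonneg_left this hδ0.le
        linarith
      have e3 : 0 ≤ δ * (8 * δ * P + 1) := by positivity
      nlinarith
    -- upper bound of K * goal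
    have h6 : K * (1 / 2 * (P - L ^ 2) - ε * P) ≤ h * (P - L ^ 2) + (12 * h ^ 2 + δ / 2 - 2 * h * ε) * P := by
      have e1 : 0 ≤ P - L ^ 2 := by linarith
      have e2 : P - L ^ 2 ≤ P := by nlinarith [sq_nonneg L]
      have e3 : (12 * h ^ 2 + δ / 2) * (P - L ^ 2) ≤ (12 * h ^ 2 + δ / 2) * P :=
        mul_le_mul_of_nonneg_left e2 (by positivity)
      have e4 : 2 * h * ε * P ≤ K * (ε * P) := by
        have : 2 * h ≤ K := by rw [hK]; nlinarith
        have := mul_le_mul_of_nonneg_right this (by positivity : 0 ≤ ε * P)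
        linarith
      have e5 : K * (1 / 2 * (P - L ^ 2)) = h * (P - L ^ 2) + (12 * h ^ 2 + δ / 2) * (P - L ^ 2) := by
        rw [hK]; ring
      nlinarith
    have h8 : 1 ≤ (2 * h * ε - 12 * h ^ 2 - δ / 2 - 2 * h * δ - 8 * δ) * P := by
      have e1 : ε ^ 2 / 100 ≤ 2 * h * ε - 12 * h ^ 2 - δ / 2 - 2 * h * δ - 8 * δ := by
        rw [hh, hδ]
        have : ε ^ 3 ≤ ε ^ 2 := by nlinarith [sq_nonneg ε]
        nlinarith
      have e2 : 100 ≤ ε ^ 2 * P := by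
        have f1 : 100 ≤ (ε * L) ^ 2 := by nlinarith
        have f2 : ε ^ 2 * L ^ 2 ≤ ε ^ 2 * P := mul_le_mul_of_nonneg_left hLP (by positivity)
        nlinarith
      have e3 := mul_le_mul_of_nonneg_right e1 hP0.le
      linarith
    have h9 : K * (1 / 2 * (P - L ^ 2) - ε * P) ≤ K * D := by linarith
    exact le_of_mul_le_mul_left h9 hK0

/-- M1e. Final numbers. PROOF. Let `a = 2 π - δ`, `B = (h/2π)(L Y - L²) - δ L Y`. If `B ≤ 0` then `L Y - L² ≤ (2π/h) δ L Y`, so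
`(1/2)(L Y' - L²) ≤ (1/2)(L Y - L²) + (δ/2) L Y' ≤ ε L Y'` for small `δ` (`D ≥ 0`). Otherwise
`a B ≤ (2h(1+12h)+δ)(Y'/Y) D + 1`, `a B ≥ h (L Y - L²) - (δ h/(2π)) L Y - 2 π δ L Y`, `Y'/Y ≤ 1/(1-δ)`, so
`D ≥ (1-δ) (h (L Y - L²) - 8 δ L Y - 1)/(2h(1+12h)+δ)`; with `h = ε/100` and `δ` small compared with `h ε`, and
`L Y ≥ (1-δ) L Y'`, `L Y' ≥ L² → ∞`: `D ≥ (1/2)(L Y' - L²) - ε L Y'`. -/
theorem final_numeric (ε : ℝ) (hε : 0 < ε) (hε1 : ε ≤ 1) : ∃ h δ : ℝ, 0 < h ∧ h ≤ 1 ∧ 0 < δ ∧ δ ≤ 1 / 2 ∧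
    ∃ L₀ : ℝ, 1 ≤ L₀ ∧ ∀ L Y Y' D I : ℝ, L₀ ≤ L → L ≤ Y' → L / 2 ≤ Y → Y ≤ Y' → (1 - δ) * Y' ≤ Y → 0 ≤ D →
      2 * Real.pi - δ ≤ I → I ≤ 2 * Real.pi →
      I * (h / (2 * Real.pi) * (L * Y - L ^ 2) - δ * (L * Y)) ≤ (2 * h * (1 + 12 * h) + δ) * (Y' / Y) * D + 1 →
      1 / 2 * L * (Y' - L) - ε * (L * Y') ≤ D := by
  refine ⟨ε / 100, ε ^ 2 / 2000, by positivity, by linarith, by positivity, ?_, 10 / ε, ?_, ?_⟩
  · have : ε ^ 2 ≤ 1 := by nlinarith
    linarith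
  · rw [le_div_iff₀ hε]; linarith
  · intro L Y Y' D I h1 h2 h3 h4 h5 h6 h7 _ h9
    exact M1E_core ε (ε / 100) (ε ^ 2 / 2000) L Y Y' D I Real.pi hε hε1 rfl rfl Real.pi_gt_three
      Real.pi_lt_d2 h1 h2 h3 h4 h5 h6 h7 h9

end Pool.Agent.SK
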