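import Mathlib

set_option autoImplicit false

namespace Pool.Agent.SK

open MeasureTheory

private theorem unw_inv (y : ℝ) : IntegrableOn (fun z : ℝ => 1 / z) (Set.Ioc 1 y) := by
  apply IntegrableOn.mono_set _ Set.Ioc_subset_Icc_self
  apply ContinuousOn.integrableOn_Icc
  apply continuousOn_const.div continuousOn_id
  intro z hz
  exact (lt_of_lt_of_le one_pos hz.1).ne'

/-- U1. PROOF. Tonelli on `{(x, z) | 1 < x ≤ z ≤ y}`: `∫_{x}^{y} dz/z = log y - log x`, so
`∫_{Ioc 1 y} (log y - log x) g x dx = ∫_{Ioc 1 y} (∫_{Ioc 1 z} g) / z dz` (`integral_integral_swap` for the function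
`(x, z) ↦ g x / z` restricted to `x ≤ z`, integrable since `g` is integrable on `Ioc 1 y` and `1/z ≤ 1`). -/
theorem fejer_eq (g : ℝ → ℝ) (y : ℝ) (hy : 1 ≤ y) (hg : IntegrableOn g (Set.Ioc 1 y)) :
    ∫ x in Set.Ioc 1 y, (Real.log y - Real.log x) * g x = ∫ z in Set.Ioc 1 y, (∫ x in Set.Ioc 1 z, g x) / z := by
  have hinv : IntegrableOn (fun z : ℝ => 1 / z) (Set.Ioc 1 y) := unw_inv y
  set μ : Measure ℝ := volume.restrict (Set.Ioc 1 y) with hμ
  have hint : Integrable (fun p : ℝ × ℝ => Set.indicator {p : ℝ × ℝ | p.1 ≤ p.2}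
      (fun p => g p.1 * (1 / p.2)) p) (μ.prod μ) :=
    (Integrable.mul_prod (f := g) (g := fun z : ℝ => 1 / z) hg hinv).indicator
      (measurableSet_le measurable_fst measurable_snd)
  have hswap := integral_integral_swap (μ := μ) (ν := μ)
    (f := fun x z => Set.indicator {p : ℝ × ℝ | p.1 ≤ p.2} (fun p => g p.1 * (1 / p.2)) (x, z)) hint
  have hL : ∀ x ∈ Set.Ioc 1 y, (∫ z, Set.indicator {p : ℝ × ℝ | p.1 ≤ p.2}
      (fun p => g p.1 * (1 / p.2)) (x, z) ∂μ) = (Real.log y - Real.log x) * g x := by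
    intro x hx
    have h0 : 0 < x := lt_trans one_pos hx.1
    have e1 : (fun z => Set.indicator {p : ℝ × ℝ | p.1 ≤ p.2} (fun p => g p.1 * (1 / p.2)) (x, z)) =
        Set.indicator (Set.Ici x) (fun z => g x * (1 / z)) := by
      funext z
      by_cases hz : x ≤ z
      · rw [Set.indicator_of_mem (show (x, z) ∈ {p : ℝ × ℝ | p.1 ≤ p.2} from hz),
          Set.indicator_of_mem (show z ∈ Set.Ici x from hz)]
      · rw [Set.indicator_of_notMem (show (x, z) ∉ {p : ℝ × ℝ | p.1 ≤ p.2} from hz),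
          Set.indicator_of_notMem (show z ∉ Set.Ici x from hz)]
    rw [e1, integral_indicator measurableSet_Ici, hμ, Measure.restrict_restrict measurableSet_Ici]
    have e2 : Set.Ici x ∩ Set.Ioc 1 y = Set.Icc x y := by
      ext z
      simp only [Set.mem_inter_iff, Set.mem_Ici, Set.mem_Ioc, Set.mem_Icc]
      constructor
      · rintro ⟨h1, _, h3⟩
        exact ⟨h1, h3⟩
      · rintro ⟨h1, h3⟩
        exact ⟨h1, lt_of_lt_of_le hx.1 h1, h3⟩
    rw [e2, integral_Icc_eq_integral_Ioc, ← intervalIntegral.integral_of_le hx.2,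
      intervalIntegral.integral_const_mul, integral_one_div_of_pos h0 (lt_of_lt_of_le h0 hx.2),
      Real.log_div (lt_of_lt_of_le h0 hx.2).ne' h0.ne', mul_comm]
  have hR : ∀ z ∈ Set.Ioc 1 y, (∫ x, Set.indicator {p : ℝ × ℝ | p.1 ≤ p.2}
      (fun p => g p.1 * (1 / p.2)) (x, z) ∂μ) = (∫ x in Set.Ioc 1 z, g x) / z := by
    intro z hz
    have e1 : (fun x => Set.indicator {p : ℝ × ℝ | p.1 ≤ p.2} (fun p => g p.1 * (1 / p.2)) (x, z)) =
        Set.indicator (Set.Iic z) (fun x => g x * (1 / z)) := by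
      funext x
      by_cases hx : x ≤ z
      · rw [Set.indicator_of_mem (show (x, z) ∈ {p : ℝ × ℝ | p.1 ≤ p.2} from hx),
          Set.indicator_of_mem (show x ∈ Set.Iic z from hx)]
      · rw [Set.indicator_of_notMem (show (x, z) ∉ {p : ℝ × ℝ | p.1 ≤ p.2} from hx),
          Set.indicator_of_notMem (show x ∉ Set.Iic z from hx)]
    rw [e1, integral_indicator measurableSet_Iic, hμ, Measure.restrict_restrict measurableSet_Iic]
    have e2 : Set.Iic z ∩ Set.Ioc 1 y = Set.Ioc 1 z := by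
      ext x
      simp only [Set.mem_inter_iff, Set.mem_Iic, Set.mem_Ioc]
      constructor
      · rintro ⟨h1, h2, _⟩
        exact ⟨h2, h1⟩
      · rintro ⟨h1, h3⟩
        exact ⟨h3, h1, h3.trans hz.2⟩
    rw [e2, integral_mul_const, mul_one_div]
  rw [← setIntegral_congr_fun measurableSet_Ioc hL, ← setIntegral_congr_fun measurableSet_Ioc hR]
  exact hswap

/-- U2. From the triangular weight to the plain mean.
PROOF. Let `Φ z = ∫_{Ioc 1 z} g` (nonnegative, monotone), `Y = log y`. Suppose `Φ z < (1 - ε) L log z` for all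
`z ∈ [y^δ, y]`, `δ = ε/8`... (`δ ≤ 1`). By `fejer_eq`, `∫ (log y - log x) g = ∫_{Ioc 1 y} Φ z/z dz`; on `z ≤ y^δ`: `Φ z ≤ Φ (y^δ) <
(1 - ε) L δ Y`, so this part is at most `(1-ε) L δ² Y²` (`∫_{1}^{y^δ} dz/z = δ Y`); on `z ∈ [y^δ, y]` at most
`(1-ε) L ∫_1^y (log z)/z dz = (1-ε) L Y²/2`. Total `< (1-ε) (1/2 + δ²) L Y² ≤ (1/2 - ε/4) L Y²` for `0 < ε ≤ 1`, `δ = ε/8`
(`(1-ε)(1/2 + ε²/64) ≤ 1/2 - ε/4`). But by `h` it is at least `Y (1/2 - ε/4) L Y`. -/
theorem plain_of_fejer (g : ℝ → ℝ) (L ε y : ℝ) (hL : 0 < L) (hε : 0 < ε) (hε1 : ε ≤ 1) (hy : 1 < y)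
    (hg0 : ∀ x, 0 ≤ g x) (hg : IntegrableOn g (Set.Ioc 1 y))
    (h : (1 / 2 - ε / 4) * L * Real.log y ≤ ∫ x in Set.Ioc 1 y, (1 - Real.log x / Real.log y) * g x) :
    ∃ z : ℝ, y ^ (ε / 8) ≤ z ∧ z ≤ y ∧ (1 - ε) * L * Real.log z ≤ ∫ x in Set.Ioc 1 z, g x := by
  by_contra hcon
  push Not at hcon
  have hY : 0 < Real.log y := Real.log_pos hy
  have hy0 : 0 < y := one_pos.trans hy
  -- the integral with the triangular weight
  have h1 : ∫ x in Set.Ioc 1 y, (1 - Real.log x / Real.log y) * g x =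
      (∫ z in Set.Ioc 1 y, (∫ x in Set.Ioc 1 z, g x) / z) / Real.log y := by
    rw [← fejer_eq g y hy.le hg, ← integral_div]
    congr 1
    funext x
    field_simp
  -- pointwise bound
  have hyd : y ^ (ε / 8) ≤ y := by
    calc y ^ (ε / 8) ≤ y ^ (1 : ℝ) := Real.rpow_le_rpow_of_exponent_le hy.le (by linarith)
      _ = y := Real.rpow_one y
  have hyd0 : 0 < y ^ (ε / 8) := Real.rpow_pos_of_pos hy0 _
  have hb : ∀ z ∈ Set.Ioc 1 y, (∫ x in Set.Ioc 1 z, g x) ≤
      (1 - ε) * L * (Real.log z + ε / 8 * Real.log y) := by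
    intro z hz
    have hlz : 0 ≤ Real.log z := Real.log_nonneg hz.1.le
    have he : 0 ≤ (1 - ε) * L := mul_nonneg (by linarith) hL.le
    rcases le_total (y ^ (ε / 8)) z with hc | hc
    · refine (hcon z hc hz.2).le.trans ?_
      apply mul_le_mul_of_nonneg_left _ he
      have : 0 ≤ ε / 8 * Real.log y := by positivity
      linarith
    · have hm : (∫ x in Set.Ioc 1 z, g x) ≤ ∫ x in Set.Ioc 1 (y ^ (ε / 8)), g x := by
        apply setIntegral_mono_set (hg.mono_set (Set.Ioc_subset_Ioc_right hyd))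
        · exact Filter.Eventually.of_forall fun x => hg0 x
        · exact (Set.Ioc_subset_Ioc_right hc).eventuallyLE
      refine hm.trans ((hcon _ le_rfl hyd).le.trans ?_)
      apply mul_le_mul_of_nonneg_left _ he
      rw [Real.log_rpow hy0]
      linarith
  -- integral of the bound
  have hderiv : ∀ z ∈ Set.uIcc 1 y, HasDerivAt
      (fun z => (1 - ε) * L * (Real.log z ^ 2 / 2 + ε / 8 * Real.log y * Real.log z))
      ((1 - ε) * L * (Real.log z + ε / 8 * Real.log y) / z) z := by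
    intro z hz
    rw [Set.uIcc_of_le hy.le] at hz
    have hz0 : z ≠ 0 := (lt_of_lt_of_le one_pos hz.1).ne'
    have hl := Real.hasDerivAt_log hz0
    have := (((hl.pow 2).div_const 2).add (hl.const_mul (ε / 8 * Real.log y))).const_mul
      ((1 - ε) * L)
    refine this.congr_deriv ?_
    push_cast
    ring
  have hcont : ContinuousOn (fun z => (1 - ε) * L * (Real.log z + ε / 8 * Real.log y) / z)
      (Set.Icc 1 y) := by
    intro z hz
    have hz0 : z ≠ 0 := (lt_of_lt_of_le one_pos hz.1).ne'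
    exact ((continuousAt_const.mul ((Real.continuousAt_log hz0).add continuousAt_const)).div
      continuousAt_id hz0).continuousWithinAt
  have hInt : IntegrableOn (fun z => (1 - ε) * L * (Real.log z + ε / 8 * Real.log y) / z)
      (Set.Ioc 1 y) := (hcont.integrableOn_Icc).mono_set Set.Ioc_subset_Icc_self
  have hval : ∫ z in Set.Ioc 1 y, (1 - ε) * L * (Real.log z + ε / 8 * Real.log y) / z =
      (1 - ε) * L * (1 / 2 + ε / 8) * Real.log y ^ 2 := by
    rw [← intervalIntegral.integral_of_le hy.le,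
      intervalIntegral.integral_eq_sub_of_hasDerivAt hderiv
        (hcont.intervalIntegrable_of_Icc hy.le)]
    simp only [Real.log_one]
    ring
  have h2 : ∫ z in Set.Ioc 1 y, (∫ x in Set.Ioc 1 z, g x) / z ≤
      (1 - ε) * L * (1 / 2 + ε / 8) * Real.log y ^ 2 := by
    rw [← hval]
    apply integral_mono_of_nonneg
    · refine (ae_restrict_iff' measurableSet_Ioc).mpr (Filter.Eventually.of_forall ?_)
      intro z hz
      exact div_nonneg (integral_nonneg fun x => hg0 x) (one_pos.trans hz.1).le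
    · exact hInt
    · refine (ae_restrict_iff' measurableSet_Ioc).mpr (Filter.Eventually.of_forall ?_)
      intro z hz
      exact div_le_div_of_nonneg_right (hb z hz) (one_pos.trans hz.1).le
  rw [h1, le_div_iff₀ hY] at h
  have h3 : (1 / 2 - ε / 4) * L * Real.log y * Real.log y ≤
      (1 - ε) * L * (1 / 2 + ε / 8) * Real.log y ^ 2 := h.trans h2
  have h4 : 0 < L * Real.log y ^ 2 := by positivity
  have h5 : (1 / 2 - ε / 4) ≤ (1 - ε) * (1 / 2 + ε / 8) := by
    by_contra h6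
    push Not at h6
    have := mul_lt_mul_of_pos_right h6 h4
    nlinarith
  nlinarith

end Pool.Agent.SK
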