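import Pool.Agent.Lib.MP_9cfc0a_nt.Mg.G021
import Pool.Agent.Lib.MP_9cfc0a_nt.Mg.G009
import Pool.Agent.Lib.MP_9cfc0a_nt.SK.Unw

set_option autoImplicit false

/-! The final theorems of the campaign SK (MP_9cfc0a, SharpConstant). -/

namespace Pool.Agent.SK

open Complex MeasureTheory
open Pool.Agent.EM (psiC V psi)
open Pool.Agent.SO (prim NN)
open MP9cfc0a.SK

theorem primBound : PrimBound := primBound_of prim_main

end Pool.Agent.SK
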