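import Pool.Agent.Lib.MP_9cfc0a_nt.SK.RDefs

set_option autoImplicit false

namespace Pool.Agent.SK

open Complex MeasureTheory

/-- R1. -/
theorem bd_zero (a T : ℝ) (ha : 0 ≤ a) (hT : 0 ≤ T) (G : ℂ → ℂ)
    (hG : ∀ w : ℂ, |w.re| ≤ a → |w.im| ≤ T → DifferentiableAt ℂ G w) : bd a T G = 0 := by
  have hre : Set.uIcc (-a) a = Set.Icc (-a) a := Set.uIcc_of_le (by linarith)
  have him : Set.uIcc (-T) T = Set.Icc (-T) T := Set.uIcc_of_le (by linarith)
  have key := Complex.integral_boundary_rect_eq_zero_of_differentiableOn G ⟨-a, -T⟩ ⟨a, T⟩ (by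
    intro s hs
    rw [mem_reProdIm] at hs
    obtain ⟨h1, h2⟩ := hs
    simp only at h1 h2
    rw [hre, Set.mem_Icc] at h1
    rw [him, Set.mem_Icc] at h2
    refine (hG s ?_ ?_).differentiableWithinAt
    · rw [abs_le]; exact h1
    · rw [abs_le]; exact h2)
  simp only [smul_eq_mul] at key
  have e1 : (∫ x in (-a)..a, G ((x : ℂ) - (T : ℂ) * I)) =
      ∫ x in (-a)..a, G ((x : ℂ) + ((-T : ℝ) : ℂ) * I) := by
    congr 1
    ext x
    congr 1
    push_cast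
    ring
  have e2 : (∫ v in (-T)..T, G (-(a : ℂ) + (v : ℂ) * I)) =
      ∫ v in (-T)..T, G (((-a : ℝ) : ℂ) + (v : ℂ) * I) := by
    congr 1
    ext x
    congr 1
    push_cast
    ring
  unfold bd
  rw [e1, e2]
  have hI : (1 / I : ℂ) * I = 1 := by
    rw [one_div, inv_mul_cancel₀ I_ne_zero]
  calc _ = (1 / I) * ((((∫ x in (-a)..a, G ((x : ℂ) + ((-T : ℝ) : ℂ) * I)) -
        ∫ x in (-a)..a, G ((x : ℂ) + ((T : ℝ) : ℂ) * I)) +
        I * ∫ y in (-T)..T, G (((a : ℝ) : ℂ) + (y : ℂ) * I)) -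
        I * ∫ y in (-T)..T, G (((-a : ℝ) : ℂ) + (y : ℂ) * I)) := by
        linear_combination (-((∫ v in (-T)..T, G ((a : ℂ) + (v : ℂ) * I)) -
          ∫ v in (-T)..T, G (((-a : ℝ) : ℂ) + (v : ℂ) * I))) * hI
    _ = (1 / I) * 0 := by rw [key]
    _ = 0 := mul_zero _

end Pool.Agent.SK
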