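import Mathlib

set_option autoImplicit false

/-! The boundary functional of a rectangle: `(1/i) ∮`. -/

namespace Pool.Agent.SK

open Complex MeasureTheory

/-- `(1/i) ∮ G(w) dw` over the boundary of `[-a, a] × [-T, T]`, counterclockwise. -/
noncomputable def bd (a T : ℝ) (G : ℂ → ℂ) : ℂ :=
  (∫ v in (-T)..T, G ((a : ℂ) + (v : ℂ) * I)) - (∫ v in (-T)..T, G (-(a : ℂ) + (v : ℂ) * I)) +
    (1 / I) * ((∫ x in (-a)..a, G ((x : ℂ) - (T : ℂ) * I)) - ∫ x in (-a)..a, G ((x : ℂ) + (T : ℂ) * I))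

/-- The boundary of the rectangle. -/
def Bd (a T : ℝ) (w : ℂ) : Prop :=
  (|w.re| = a ∧ |w.im| ≤ T) ∨ (|w.re| ≤ a ∧ |w.im| = T)

end Pool.Agent.SK
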