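import Mathlib
import Pool.Agent.Lib.MP_9cfc0a_nt.SO.Defs

set_option autoImplicit false

/-! Part A (zero free region for almost all characters): circle averages, Markov, sums. -/

namespace Pool.Agent.SK

open Complex MeasureTheory
open Pool.Agent.SO (pt prim MM NN)

theorem prim_isPrimitive {r : ℕ} [NeZero r] {χ : DirichletCharacter ℂ r} (h : χ ∈ prim r) :
    χ.IsPrimitive := by
  let : DecidablePred fun χ : DirichletCharacter ℂ r => χ.IsPrimitive := Classical.decPred _
  unfold prim at h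
  exact (Finset.mem_filter.mp h).2

theorem ZF_prim_ne_one {r : ℕ} [NeZero r] (hr : 2 ≤ r) {χ : DirichletCharacter ℂ r} (h : χ ∈ prim r) :
    χ ≠ 1 := by
  intro h3
  have hp := prim_isPrimitive h
  rw [h3, DirichletCharacter.isPrimitive_def, DirichletCharacter.conductor_one] at hp
  omega

/-- circle averages of a family -/
theorem sum_avg_le {ι : Type*} (P : Finset ι) (g : ι → ℂ → ℂ) (hg : ∀ i ∈ P, Continuous (g i))
    (R B : ℝ) (hR : 0 ≤ R) (h : ∀ w : ℂ, ‖w‖ = R → ∑ i ∈ P, ‖g i w‖ ^ 2 ≤ B) :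
    ∑ i ∈ P, Real.circleAverage (fun w => ‖g i w‖ ^ 2) 0 R ≤ B := by
  have hint : ∀ i ∈ P, CircleIntegrable (fun w => ‖g i w‖ ^ 2) 0 R := by
    intro i hi
    exact (((hg i hi).norm).pow 2).continuousOn.circleIntegrable hR
  rw [← Real.circleAverage_fun_sum (c := (0 : ℂ)) (R := R) hint]
  apply Real.circleAverage_mono_on_of_le_circle
  · exact CircleIntegrable.fun_sum _ hint
  · intro w hw
    rw [mem_sphere_iff_norm, sub_zero, abs_of_nonneg hR] at hw
    exact h w hw

open scoped Classical in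
/-- Markov and union bound -/
theorem markov_union {ι κ : Type*} (P : Finset ι) (I : Finset κ) (X : κ → ι → ℝ) (thr E : κ → ℝ)
    (hX : ∀ k ∈ I, ∀ i ∈ P, 0 ≤ X k i) (hthr : ∀ k ∈ I, 0 < thr k)
    (hE : ∀ k ∈ I, ∑ i ∈ P, X k i ≤ E k) :
    ((P.filter fun i => ∃ k ∈ I, thr k < X k i).card : ℝ) ≤ ∑ k ∈ I, E k / thr k := by
  have h1 : (P.filter fun i => ∃ k ∈ I, thr k < X k i) ⊆ I.biUnion fun k => P.filter fun i => thr k < X k i := by
    intro i hi
    rw [Finset.mem_filter] at hi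
    obtain ⟨hiP, k, hk, hlt⟩ := hi
    rw [Finset.mem_biUnion]
    exact ⟨k, hk, Finset.mem_filter.2 ⟨hiP, hlt⟩⟩
  have h2 : ((P.filter fun i => ∃ k ∈ I, thr k < X k i).card : ℝ) ≤
      ∑ k ∈ I, ((P.filter fun i => thr k < X k i).card : ℝ) := by
    exact_mod_cast (Finset.card_le_card h1).trans Finset.card_biUnion_le
  refine h2.trans (Finset.sum_le_sum fun k hk => ?_)
  rw [le_div_iff₀ (hthr k hk)]
  calc ((P.filter fun i => thr k < X k i).card : ℝ) * thr k
      = ∑ i ∈ P.filter (fun i => thr k < X k i), thr k := by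
        rw [Finset.sum_const, nsmul_eq_mul]
    _ ≤ ∑ i ∈ P.filter (fun i => thr k < X k i), X k i :=
        Finset.sum_le_sum fun i hi => (Finset.mem_filter.1 hi).2.le
    _ ≤ ∑ i ∈ P, X k i := Finset.sum_le_sum_of_subset_of_nonneg (Finset.filter_subset _ _)
        fun i hi _ => hX k hk i hi
    _ ≤ E k := hE k hk

/-- `∑_{|j| ≤ J} (1 + |j|/L)^{-2} ≤ 3 L` -/
theorem sum_weight (L : ℝ) (hL : 1 ≤ L) (J : ℕ) :
    ∑ j ∈ Finset.Icc (-(J : ℤ)) J, 1 / (1 + |(j : ℝ)| / L) ^ 2 ≤ 3 * L := by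
  have hL0 : 0 < L := by linarith
  have key : ∀ n : ℕ, ∑ j ∈ Finset.Icc (-(n : ℤ)) n, 1 / (1 + |(j : ℝ)| / L) ^ 2 ≤
      1 + 2 * L ^ 2 * (1 / L - 1 / (L + n)) := by
    intro n
    induction n with
    | zero => simp
    | succ n ih =>
      have hset : Finset.Icc (-((n + 1 : ℕ) : ℤ)) ((n + 1 : ℕ) : ℤ) =
          insert (-((n + 1 : ℕ) : ℤ)) (insert ((n + 1 : ℕ) : ℤ) (Finset.Icc (-(n : ℤ)) n)) := by
        ext x
        simp only [Finset.mem_Icc, Finset.mem_insert]
        push_cast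
        omega
      rw [hset, Finset.sum_insert, Finset.sum_insert]
      · have e1 : |(((-((n + 1 : ℕ) : ℤ)) : ℤ) : ℝ)| = n + 1 := by
          push_cast
          rw [abs_of_neg (by linarith [(Nat.cast_nonneg n : (0 : ℝ) ≤ n)])]
          ring
        have e2 : |((((n + 1 : ℕ) : ℤ) : ℤ) : ℝ)| = n + 1 := by
          push_cast
          rw [abs_of_nonneg (by positivity)]
        rw [e1, e2]
        have hn : (0 : ℝ) ≤ n := Nat.cast_nonneg n
        have h3 : 1 / (1 + ((n : ℝ) + 1) / L) ^ 2 ≤ L ^ 2 * (1 / (L + n) - 1 / (L + (n + 1 : ℕ))) := by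
          push_cast
          have e3 : 1 / (1 + ((n : ℝ) + 1) / L) ^ 2 = L ^ 2 / (L + n + 1) ^ 2 := by
            field_simp
            ring_nf
          have e4 : L ^ 2 * (1 / (L + n) - 1 / (L + (n + 1))) = L ^ 2 / ((L + n) * (L + n + 1)) := by
            field_simp
            ring
          rw [e3, e4]
          apply div_le_div_of_nonneg_left (by positivity) (by positivity)
          nlinarith
        have h4 : 2 * L ^ 2 * (1 / L - 1 / (L + (n + 1 : ℕ))) =
            2 * L ^ 2 * (1 / L - 1 / (L + n)) + 2 * (L ^ 2 * (1 / (L + n) - 1 / (L + (n + 1 : ℕ)))) := by ring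
        rw [h4]
        linarith
      · simp only [Finset.mem_Icc]
        push_cast
        omega
      · simp only [Finset.mem_insert, Finset.mem_Icc]
        push_cast
        omega
  refine (key J).trans ?_
  have h1 : 0 ≤ 1 / (L + J) := by positivity
  have h2 : 2 * L ^ 2 * (1 / L) = 2 * L := by field_simp
  nlinarith [mul_nonneg (by positivity : 0 ≤ 2 * L ^ 2) h1]

/-- `∑ e^{-k/16} ≤ 17` -/
theorem sum_exp_le (n : ℕ) : ∑ k ∈ Finset.range n, Real.exp (-((k : ℝ) / 16)) ≤ 17 := by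
  have h1 : ∀ k ∈ Finset.range n, Real.exp (-((k : ℝ) / 16)) = Real.exp (-(1 / 16)) ^ k := by
    intro k _
    rw [← Real.exp_nat_mul]
    congr 1
    ring
  rw [Finset.sum_congr rfl h1]
  set q := Real.exp (-(1 / 16)) with hq
  have hq0 : 0 < q := Real.exp_pos _
  have hq1 : q ≤ 16 / 17 := by
    have h2 := Real.add_one_le_exp (1 / 16 : ℝ)
    rw [hq, Real.exp_neg]
    rw [inv_le_comm₀ (Real.exp_pos _) (by norm_num)]
    norm_num at h2 ⊢
    linarith
  have h3 : ∀ n : ℕ, ∑ k ∈ Finset.range n, q ^ k ≤ 17 * (1 - q ^ n) := by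
    intro n
    induction n with
    | zero => simp
    | succ n ih =>
      rw [Finset.sum_range_succ]
      have : 0 < q ^ n := pow_pos hq0 n
      rw [pow_succ]
      nlinarith
  have h4 := h3 n
  have : 0 < q ^ n := pow_pos hq0 n
  linarith

end Pool.Agent.SK
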